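import Mathlib

/-!
# Universal bound: separated families of real numbers

`N` nonnegative numbers with mutual distances at least `h` have sum at least `h N (N - 1) / 2`,
and the positive parts of the differences minus `D` have total at least
`((N - 1) h - D)^3 / (6 h^2)`.
-/

namespace MPacf82c
namespace UB

variable {ι : Type}

/-- The values on `A` have mutual distances at least `h`. -/
def Sep (A : Finset ι) (α : ι → ℝ) (h : ℝ) : Prop :=
  ∀ i ∈ A, ∀ j ∈ A, i ≠ j → h ≤ |α i - α j|

theorem Sep.mono {A B : Finset ι} {α : ι → ℝ} {h : ℝ} (hs : Sep A α h) (hB : B ⊆ A) :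
    Sep B α h := fun i hi j hj hij => hs i (hB hi) j (hB hj) hij

theorem Sep.add_le [DecidableEq ι] {A : Finset ι} {a : ι} {α : ι → ℝ} {h : ℝ}
    (hs : Sep (insert a A) α h) (ha : a ∉ A) (hmax : ∀ x ∈ A, α x ≤ α a) :
    ∀ i ∈ A, α i + h ≤ α a := by
  intro i hi
  have h1 : i ≠ a := fun h => ha (h ▸ hi)
  have h2 := hs i (Finset.mem_insert_of_mem hi) a (Finset.mem_insert_self _ _) h1
  rw [abs_of_nonpos (by linarith [hmax i hi])] at h2
  linarith

theorem sep_max [DecidableEq ι] {h : ℝ} (hh : 0 ≤ h) (A : Finset ι) (α : ι → ℝ) :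
    Sep A α h → (∀ i ∈ A, 0 ≤ α i) → ∀ c, 0 ≤ c → (∀ i ∈ A, α i + h ≤ c) →
      (A.card : ℝ) * h ≤ c := by
  refine Finset.induction_on_max_value (motive := fun A : Finset ι => Sep A α h →
    (∀ i ∈ A, 0 ≤ α i) → ∀ c, 0 ≤ c → (∀ i ∈ A, α i + h ≤ c) → (A.card : ℝ) * h ≤ c) α A ?_ ?_
  · intro _ _ c hc _
    simpa using hc
  · intro a A ha hmax ih hs h0 c hc hb
    have h1 := ih (hs.mono (Finset.subset_insert _ _))
      (fun i hi => h0 i (Finset.mem_insert_of_mem hi)) (α a) (h0 a (Finset.mem_insert_self _ _))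
      (hs.add_le ha hmax)
    have h2 := hb a (Finset.mem_insert_self _ _)
    rw [Finset.card_insert_of_notMem ha]
    push_cast
    linarith

theorem sep_sum [DecidableEq ι] {h : ℝ} (hh : 0 ≤ h) (A : Finset ι) (α : ι → ℝ) :
    Sep A α h → (∀ i ∈ A, 0 ≤ α i) →
      h * (A.card * (A.card - 1)) / 2 ≤ ∑ i ∈ A, α i := by
  refine Finset.induction_on_max_value (motive := fun A : Finset ι => Sep A α h →
    (∀ i ∈ A, 0 ≤ α i) → h * (A.card * (A.card - 1)) / 2 ≤ ∑ i ∈ A, α i) α A ?_ ?_
  · intro _ _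
    simp
  · intro a A ha hmax ih hs h0
    have hs' := hs.mono (Finset.subset_insert a A)
    have h0' : ∀ i ∈ A, 0 ≤ α i := fun i hi => h0 i (Finset.mem_insert_of_mem hi)
    have h1 := ih hs' h0'
    have h2 := sep_max hh A α hs' h0' (α a) (h0 a (Finset.mem_insert_self _ _))
      (hs.add_le ha hmax)
    rw [Finset.sum_insert ha, Finset.card_insert_of_notMem ha]
    push_cast
    nlinarith

theorem real_one {h : ℝ} (hh : 0 < h) (W : ℝ) :
    (max W 0) ^ 2 / (2 * h) ≤ max W 0 + (max (W - h) 0) ^ 2 / (2 * h) := by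
  rcases le_total W 0 with h1 | h1
  · rw [max_eq_right h1]
    have : 0 ≤ (max (W - h) 0) ^ 2 / (2 * h) := by positivity
    simpa using this
  · rw [max_eq_left h1]
    rcases le_total W h with h2 | h2
    · rw [max_eq_right (by linarith : W - h ≤ 0)]
      rw [div_le_iff₀ (by positivity)]
      have h3 : (W + 0 ^ 2 / (2 * h)) * (2 * h) = W * (2 * h) := by ring
      rw [h3]
      nlinarith
    · rw [max_eq_left (by linarith : 0 ≤ W - h)]
      rw [div_le_iff₀ (by positivity)]
      have h3 : (W + (W - h) ^ 2 / (2 * h)) * (2 * h) = W * (2 * h) + (W - h) ^ 2 := by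
        field_simp
      rw [h3]
      nlinarith [sq_nonneg h]

theorem real_two {h : ℝ} (hh : 0 < h) (W : ℝ) :
    (max W 0) ^ 3 / (6 * h ^ 2) ≤
      (max (W - h) 0) ^ 3 / (6 * h ^ 2) + (max W 0) ^ 2 / (2 * h) := by
  have hpos : (0 : ℝ) < 6 * h ^ 2 := by positivity
  have e1 : ((max (W - h) 0) ^ 3 / (6 * h ^ 2) + (max W 0) ^ 2 / (2 * h)) * (6 * h ^ 2) =
      (max (W - h) 0) ^ 3 + 3 * h * (max W 0) ^ 2 := by
    field_simp
    ring
  rw [div_le_iff₀ hpos, e1]
  rcases le_total W 0 with h1 | h1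
  · rw [max_eq_right h1]
    have : 0 ≤ (max (W - h) 0) ^ 3 := by positivity
    nlinarith
  · rw [max_eq_left h1]
    rcases le_total W h with h2 | h2
    · rw [max_eq_right (by linarith : W - h ≤ 0)]
      nlinarith [mul_nonneg (sq_nonneg W) (by linarith : 0 ≤ h - W), mul_nonneg (sq_nonneg W) hh.le]
    · rw [max_eq_left (by linarith : 0 ≤ W - h)]
      nlinarith [mul_nonneg (sq_nonneg h) (by linarith : 0 ≤ W - h), mul_nonneg (sq_nonneg h) hh.le]

theorem sep_pos_one [DecidableEq ι] {h : ℝ} (hh : 0 < h) (D : ℝ) (A : Finset ι) (d : ι → ℝ) :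
    Sep A d h → (∀ i ∈ A, h ≤ d i) → 0 ≤ D →
      (max (A.card * h - D) 0) ^ 2 / (2 * h) ≤ ∑ i ∈ A, max (d i - D) 0 := by
  refine Finset.induction_on_max_value (motive := fun A : Finset ι => Sep A d h →
    (∀ i ∈ A, h ≤ d i) → 0 ≤ D → (max (A.card * h - D) 0) ^ 2 / (2 * h) ≤
      ∑ i ∈ A, max (d i - D) 0) d A ?_ ?_
  · intro _ _ hD
    simp [max_eq_right (by linarith : -D ≤ 0)]
  · intro a A ha hmax ih hs h0 hD
    have hs' := hs.mono (Finset.subset_insert a A)
    have h0' : ∀ i ∈ A, h ≤ d i := fun i hi => h0 i (Finset.mem_insert_of_mem hi)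
    have h1 := ih hs' h0' hD
    have hsd : Sep A (fun i => d i - h) h := by
      intro i hi j hj hij
      have := hs' i hi j hj hij
      simpa using this
    have h2 := sep_max hh.le A (fun i => d i - h) hsd (fun i hi => by
      have := h0' i hi
      linarith) (d a - h) (by linarith [h0 a (Finset.mem_insert_self _ _)]) (fun i hi => by
      have := hs.add_le ha hmax i hi
      linarith)
    rw [Finset.sum_insert ha, Finset.card_insert_of_notMem ha]
    push_cast
    have h3 := real_one hh ((A.card + 1) * h - D)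
    have h4 : ((A.card : ℝ) + 1) * h - D - h = A.card * h - D := by ring
    rw [h4] at h3
    have h5 : max (((A.card : ℝ) + 1) * h - D) 0 ≤ max (d a - D) 0 :=
      max_le_max (by linarith) le_rfl
    linarith

theorem sep_pos_two [DecidableEq ι] {h : ℝ} (hh : 0 < h) {D : ℝ} (hD : 0 ≤ D) (A : Finset ι)
    (α : ι → ℝ) : Sep A α h →
      (max (((A.card : ℝ) - 1) * h - D) 0) ^ 3 / (6 * h ^ 2) ≤
        ∑ i ∈ A, ∑ j ∈ A, max (α j - α i - D) 0 := by
  refine Finset.induction_on_max_value (motive := fun A : Finset ι => Sep A α h →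
    (max (((A.card : ℝ) - 1) * h - D) 0) ^ 3 / (6 * h ^ 2) ≤
        ∑ i ∈ A, ∑ j ∈ A, max (α j - α i - D) 0) α A ?_ ?_
  · intro _
    rw [Finset.card_empty, max_eq_right (by push_cast; linarith)]
    simp
  · intro a A ha hmax ih hs
    have hs' := hs.mono (Finset.subset_insert a A)
    have h1 := ih hs'
    have hsd : Sep A (fun i => α a - α i) h := by
      intro i hi j hj hij
      have := hs' i hi j hj hij
      simp only
      rw [sub_sub_sub_cancel_left, abs_sub_comm]
      exact this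
    have h2 := sep_pos_one hh D A (fun i => α a - α i) hsd (fun i hi => by
      have := hs.add_le ha hmax i hi
      linarith) hD
    have h3 := real_two hh (A.card * h - D)
    rw [Finset.sum_insert ha, Finset.card_insert_of_notMem ha]
    push_cast
    have h4 : ((A.card : ℝ) + 1 - 1) * h - D = A.card * h - D := by ring
    rw [h4]
    have h5 : ((A.card : ℝ) - 1) * h - D = A.card * h - D - h := by ring
    rw [h5] at h1
    have h6 : ∑ i ∈ A, ∑ j ∈ insert a A, max (α j - α i - D) 0 =
        ∑ i ∈ A, max (α a - α i - D) 0 + ∑ i ∈ A, ∑ j ∈ A, max (α j - α i - D) 0 := by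
      rw [← Finset.sum_add_distrib]
      exact Finset.sum_congr rfl fun i _ => Finset.sum_insert ha
    have h7 : 0 ≤ ∑ j ∈ insert a A, max (α j - α a - D) 0 :=
      Finset.sum_nonneg fun j _ => le_max_right _ _
    rw [h6]
    linarith

end UB
end MPacf82c
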