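import Pool.Agent.Lib.MP_acf82c_lc.RouteReal

/-!
# Universal bound: geodesics in a network

Every two points of a network are joined by a path of unit speed whose length is their distance.
-/

namespace MPacf82c
namespace UB

open Set MeasureTheory
open scoped NNReal ENNReal

variable {Q : Type} [MetricSpace Q]

/-- A geodesic from `x` to `y`, constant before the time `0` and after the time `dist x y`. -/
structure IsGeo (r : ℝ → Q) (x y : Q) : Prop where
  lip : LipschitzWith 1 r
  left : ∀ s ≤ 0, r s = x
  right : ∀ s, dist x y ≤ s → r s = y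
  pos : ∀ s, 0 ≤ s → s ≤ dist x y → dist x (r s) = s

theorem lip_pt {N : Network Q} {e : N.Arc} {f : ℝ → ℝ} (hf : ∀ s, f s ∈ Icc 0 (N.len e))
    (hl : ∀ s t, |f s - f t| ≤ |s - t|) : LipschitzWith 1 (fun s => N.pt e (f s)) := by
  refine LipschitzWith.of_dist_le_mul fun s t => ?_
  rw [NNReal.coe_one, one_mul, Real.dist_eq]
  exact (N.dist_le e _ (hf s) _ (hf t)).trans (hl s t)

theorem max_left_lip (s a b : ℝ) : |max s a - max s b| ≤ |a - b| := by
  rw [max_comm s a, max_comm s b]
  exact abs_max_sub_max_le_abs _ _ _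

/-- Travelling inside one arc. -/
theorem exists_inner (N : Network Q) (e : N.Arc) {s t : ℝ} (hs : s ∈ Icc 0 (N.len e))
    (ht : t ∈ Icc 0 (N.len e)) :
    ∃ g : ℝ → Q, LipschitzWith 1 g ∧ (∀ σ ≤ 0, g σ = N.pt e s) ∧
      ∀ σ, |s - t| ≤ σ → g σ = N.pt e t := by
  rcases le_total s t with h | h
  · refine ⟨fun σ => N.pt e (max s (min (s + σ) t)), ?_, ?_, ?_⟩
    · refine lip_pt (fun σ => ⟨?_, ?_⟩) fun σ σ' => ?_
      · exact hs.1.trans (le_max_left _ _)
      · exact max_le hs.2 ((min_le_right _ _).trans ht.2)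
      · calc |max s (min (s + σ) t) - max s (min (s + σ') t)|
            ≤ |min (s + σ) t - min (s + σ') t| := max_left_lip _ _ _
          _ ≤ max |s + σ - (s + σ')| |t - t| := abs_min_sub_min_le_max _ _ _ _
          _ ≤ |σ - σ'| := by
            rw [add_sub_add_left_eq_sub, sub_self, abs_zero]
            exact max_le le_rfl (abs_nonneg _)
    · intro σ hσ
      have h1 : min (s + σ) t ≤ s := (min_le_left _ _).trans (by linarith)
      simp only [max_eq_left h1]
    · intro σ hσ
      rw [abs_of_nonpos (by linarith)] at hσ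
      have h1 : min (s + σ) t = t := min_eq_right (by linarith)
      simp only [h1, max_eq_right h]
  · refine ⟨fun σ => N.pt e (max t (min (s - σ) s)), ?_, ?_, ?_⟩
    · refine lip_pt (fun σ => ⟨?_, ?_⟩) fun σ σ' => ?_
      · exact ht.1.trans (le_max_left _ _)
      · exact max_le ht.2 ((min_le_right _ _).trans hs.2)
      · calc |max t (min (s - σ) s) - max t (min (s - σ') s)|
            ≤ |min (s - σ) s - min (s - σ') s| := max_left_lip _ _ _
          _ ≤ max |s - σ - (s - σ')| |s - s| := abs_min_sub_min_le_max _ _ _ _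
          _ ≤ |σ - σ'| := by
            rw [sub_sub_sub_cancel_left, sub_self, abs_zero, abs_sub_comm]
            exact max_le le_rfl (abs_nonneg _)
    · intro σ hσ
      have h1 : min (s - σ) s = s := min_eq_right (by linarith)
      simp only [h1, max_eq_right h]
    · intro σ hσ
      rw [abs_of_nonneg (by linarith)] at hσ
      have h1 : min (s - σ) s ≤ t := (min_le_left _ _).trans (by linarith)
      simp only [max_eq_left h1]

/-- A walk is realised by a path. -/
theorem exists_path (N : Network Q) {x y : Q} {L : ℝ} (h : Walk N.len N.pt x y L) :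
    ∃ g : ℝ → Q, LipschitzWith 1 g ∧ (∀ σ ≤ 0, g σ = x) ∧ ∀ σ, L ≤ σ → g σ = y := by
  induction h with
  | nil x => exact ⟨fun _ => x, LipschitzWith.const' x, fun _ _ => rfl, fun _ _ => rfl⟩
  | cons e s t hs ht y L h ih =>
    obtain ⟨g, hg, hg0, hg1⟩ := exists_inner N e hs ht
    obtain ⟨k, hk, hk0, hk1⟩ := ih
    have hL := nb_walk_nonneg N h
    have h0 := abs_nonneg (s - t)
    have hk' : LipschitzWith 1 (fun σ => k (σ - |s - t|)) := by
      refine LipschitzWith.of_dist_le_mul fun a b => ?_
      have h1 := hk.dist_le_mul (a - |s - t|) (b - |s - t|)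
      rwa [Real.dist_eq, sub_sub_sub_cancel_right, ← Real.dist_eq] at h1
    refine ⟨fun σ => if σ ≤ |s - t| then g σ else k (σ - |s - t|),
      RouteReal.glue hg hk' |s - t| ?_, ?_, ?_⟩
    · show g |s - t| = k (|s - t| - |s - t|)
      rw [hg1 _ le_rfl, sub_self, hk0 0 le_rfl]
    · intro σ hσ
      simp only
      rw [if_pos (by linarith)]
      exact hg0 σ hσ
    · intro σ hσ
      simp only
      by_cases h1 : σ ≤ |s - t|
      · have h2 : L = 0 := by linarith
        have h3 : σ = |s - t| := by linarith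
        rw [if_pos h1, hg1 _ h3.ge]
        rw [← hk0 0 le_rfl, hk1 0 (by linarith)]
      · rw [if_neg h1]
        exact hk1 _ (by linarith)

theorem exists_geo (N : Network Q) (x y : Q) : ∃ r : ℝ → Q, IsGeo r x y := by
  obtain ⟨g, hg, hg0, hg1⟩ := exists_path N (N.walk x y)
  refine ⟨g, hg, hg0, hg1, ?_⟩
  intro s h0 h1
  have e1 : dist x (g s) ≤ s := by
    have := hg.dist_le_mul 0 s
    rw [hg0 0 le_rfl, NNReal.coe_one, one_mul, Real.dist_eq, abs_of_nonpos (by linarith)] at this
    linarith
  have e2 : dist (g s) y ≤ dist x y - s := by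
    have := hg.dist_le_mul s (dist x y)
    rw [hg1 _ le_rfl, NNReal.coe_one, one_mul, Real.dist_eq, abs_of_nonpos (by linarith)] at this
    linarith
  have e3 := dist_triangle x (g s) y
  linarith

end UB
end MPacf82c
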