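import Pool.Agent.Lib.MP_acf82c_lc.U.Geo
import Pool.Agent.Lib.MP_acf82c_lc.WeakDuality

/-!
# Universal bound: one-dimensional Hausdorff measure of a network

The Hausdorff measure of the network is its total length, a geodesic has measure its length, and
a searcher path covers in any set of times at most the measure of this set.
-/

namespace MPacf82c
namespace UB

open Set MeasureTheory
open scoped NNReal ENNReal

variable {Q : Type} [MetricSpace Q] [MeasurableSpace Q] [BorelSpace Q]

/-- A `1`-Lipschitz path covers at most the measure of the times. -/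
theorem haus_path {S : ℝ → Q} (hS : LipschitzWith 1 S) (A : Set ℝ) : μH[1] (S '' A) ≤ volume A := by
  have h := hS.hausdorffMeasure_image_le (d := 1) zero_le_one A
  rw [hausdorffMeasure_real] at h
  simpa using h

/-- A `1`-Lipschitz real function: the values have at most the measure of the set. -/
theorem haus_fun {f : Q → ℝ} (hf : LipschitzWith 1 f) (A : Set Q) : volume (f '' A) ≤ μH[1] A := by
  have h := hf.hausdorffMeasure_image_le (d := 1) zero_le_one A
  rw [hausdorffMeasure_real] at h
  simpa using h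

/-- The measure of a geodesic. -/
theorem haus_geo {r : ℝ → Q} {x y : Q} (hr : IsGeo r x y) :
    μH[1] (r '' Icc 0 (dist x y)) = ENNReal.ofReal (dist x y) := by
  refine le_antisymm ?_ ?_
  · refine (haus_path hr.lip _).trans ?_
    rw [Real.volume_Icc, sub_zero]
  · have h1 : Icc 0 (dist x y) ⊆ (fun z => dist x z) '' (r '' Icc 0 (dist x y)) := by
      intro s hs
      exact ⟨r s, ⟨s, hs, rfl⟩, hr.pos s hs.1 hs.2⟩
    have h2 : LipschitzWith 1 (fun z : Q => dist x z) := LipschitzWith.dist_right x
    calc ENNReal.ofReal (dist x y) = volume (Icc 0 (dist x y)) := by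
          rw [Real.volume_Icc, sub_zero]
      _ ≤ volume ((fun z => dist x z) '' (r '' Icc 0 (dist x y))) := measure_mono h1
      _ ≤ _ := haus_fun h2 _

/-- The image of a piece of an arc is measured by its tent coordinate. -/
theorem haus_arc_ge (N : Network Q) (e : N.Arc) :
    ENNReal.ofReal (N.len e) ≤ μH[1] (N.openArc e) := by
  have hl := N.len_pos e
  have hne : (N.openArc e)ᶜ.Nonempty :=
    ⟨N.pt e 0, fun h => notMem_nodes_of_mem_openArc N h ⟨e, Or.inl rfl⟩⟩
  set τ : Q → ℝ := fun z => Metric.infDist z (N.openArc e)ᶜ with hτ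
  have hτl : LipschitzWith 1 τ := Metric.lipschitz_infDist_pt _
  have hval : ∀ s ∈ Ioo 0 (N.len e), τ (N.pt e s) = min s (N.len e - s) := by
    intro s hs
    have h0 : min s (N.len e - s) ≤ τ (N.pt e s) := by
      rw [hτ]
      refine (Metric.le_infDist hne).2 fun z hz => ?_
      exact dist_ge_of_notMem N e (Ioo_subset_Icc_self hs) hz
    refine le_antisymm (le_min ?_ ?_) h0
    · have h1 : N.pt e 0 ∈ (N.openArc e)ᶜ :=
        fun h => notMem_nodes_of_mem_openArc N h ⟨e, Or.inl rfl⟩
      refine (Metric.infDist_le_dist_of_mem h1).trans ?_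
      refine (N.dist_le e s (Ioo_subset_Icc_self hs) 0 ⟨le_rfl, hl.le⟩).trans ?_
      rw [sub_zero, abs_of_pos hs.1]
    · have h1 : N.pt e (N.len e) ∈ (N.openArc e)ᶜ :=
        fun h => notMem_nodes_of_mem_openArc N h ⟨e, Or.inr rfl⟩
      refine (Metric.infDist_le_dist_of_mem h1).trans ?_
      refine (N.dist_le e s (Ioo_subset_Icc_self hs) (N.len e) ⟨hl.le, le_rfl⟩).trans ?_
      rw [abs_of_neg (by linarith [hs.2])]
      linarith
  set K : Set Q := N.pt e '' Icc 0 (N.len e / 2) with hK
  have hptc : ContinuousOn (N.pt e) (Icc 0 (N.len e)) := by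
    have h2 : LipschitzOnWith 1 (N.pt e) (Icc 0 (N.len e)) := by
      refine LipschitzOnWith.of_dist_le_mul fun s hs t ht => ?_
      rw [NNReal.coe_one, one_mul, Real.dist_eq]
      exact N.dist_le e s hs t ht
    exact h2.continuousOn
  have hKm : MeasurableSet K := by
    have h1 : IsCompact K := isCompact_Icc.image_of_continuousOn
      (hptc.mono (Icc_subset_Icc le_rfl (by linarith)))
    exact h1.isClosed.measurableSet
  have hsplit := measure_inter_add_sdiff (μ := μH[1]) (N.openArc e) hKm
  have hA : ENNReal.ofReal (N.len e / 2) ≤ μH[1] (N.openArc e ∩ K) := by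
    have h1 : Ioo 0 (N.len e / 2) ⊆ τ '' (N.openArc e ∩ K) := by
      intro s hs
      have h2 : s ∈ Ioo 0 (N.len e) := ⟨hs.1, by linarith [hs.2]⟩
      refine ⟨N.pt e s, ⟨⟨s, h2, rfl⟩, ⟨s, ⟨hs.1.le, hs.2.le⟩, rfl⟩⟩, ?_⟩
      rw [hval s h2]
      exact min_eq_left (by linarith [hs.2])
    calc ENNReal.ofReal (N.len e / 2) = volume (Ioo 0 (N.len e / 2)) := by
          rw [Real.volume_Ioo, sub_zero]
      _ ≤ volume (τ '' (N.openArc e ∩ K)) := measure_mono h1
      _ ≤ _ := haus_fun hτl _
  have hB : ENNReal.ofReal (N.len e / 2) ≤ μH[1] (N.openArc e \ K) := by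
    have h1 : Ioo 0 (N.len e / 2) ⊆ τ '' (N.openArc e \ K) := by
      intro s hs
      have h2 : N.len e - s ∈ Ioo 0 (N.len e) := ⟨by linarith [hs.2], by linarith [hs.1]⟩
      refine ⟨N.pt e (N.len e - s), ⟨⟨_, h2, rfl⟩, ?_⟩, ?_⟩
      · rintro ⟨s', hs', h3⟩
        have h4 := (N.simple e e (N.len e - s) s' h2 ⟨hs'.1, by linarith [hs'.2]⟩ h3.symm).2
        linarith [hs'.2, hs.2]
      · rw [hval _ h2, sub_sub_cancel]
        exact min_eq_right (by linarith [hs.2])
    calc ENNReal.ofReal (N.len e / 2) = volume (Ioo 0 (N.len e / 2)) := by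
          rw [Real.volume_Ioo, sub_zero]
      _ ≤ volume (τ '' (N.openArc e \ K)) := measure_mono h1
      _ ≤ _ := haus_fun hτl _
  rw [← hsplit]
  calc ENNReal.ofReal (N.len e) = ENNReal.ofReal (N.len e / 2) + ENNReal.ofReal (N.len e / 2) := by
        rw [← ENNReal.ofReal_add (by linarith) (by linarith)]
        congr 1
        ring
    _ ≤ _ := add_le_add hA hB

/-- The Hausdorff measure of the network is its length. -/
theorem haus_total (N : Network Q) : μH[1] (univ : Set Q) = ENNReal.ofReal N.length := by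
  classical
  have hsum : ENNReal.ofReal N.length = ∑ e, ENNReal.ofReal (N.len e) := by
    unfold Network.length
    exact ENNReal.ofReal_sum_of_nonneg fun e _ => (N.len_pos e).le
  rw [hsum]
  refine le_antisymm ?_ ?_
  · have h1 : (Set.univ : Set Q) ⊆ ⋃ e : N.Arc, N.pt e '' Icc 0 (N.len e) := by
      intro z _
      obtain ⟨e, s, hs, hz⟩ := N.cover z
      exact Set.mem_iUnion.2 ⟨e, s, hs, hz⟩
    refine (measure_mono h1).trans ((measure_iUnion_fintype_le _ _).trans ?_)
    refine Finset.sum_le_sum fun e _ => ?_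
    have h2 : LipschitzOnWith 1 (N.pt e) (Icc 0 (N.len e)) := by
      refine LipschitzOnWith.of_dist_le_mul fun s hs t ht => ?_
      rw [NNReal.coe_one, one_mul, Real.dist_eq]
      exact N.dist_le e s hs t ht
    have h3 := h2.hausdorffMeasure_image_le (d := 1) zero_le_one
    rw [hausdorffMeasure_real, Real.volume_Icc, sub_zero] at h3
    simpa using h3
  · have hdis : Pairwise (Function.onFun Disjoint fun e => N.openArc e) := by
      intro e e' hee
      refine Set.disjoint_left.2 fun z h1 h2 => hee (openArc_unique N h1 h2)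
    calc ∑ e, ENNReal.ofReal (N.len e) ≤ ∑ e, μH[1] (N.openArc e) :=
          Finset.sum_le_sum fun e _ => haus_arc_ge N e
      _ = μH[1] (⋃ e, N.openArc e) := by
          rw [measure_iUnion hdis fun e => (isOpen_openArc N e).measurableSet, tsum_fintype]
      _ ≤ _ := measure_mono (subset_univ _)

end UB
end MPacf82c
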