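import Mathlib

/-!
# Universal bound: the real inequality and the integral

`poly_bound` is the bound of the probability of a capture up to the time `t` in terms of the
number `N` of samples visited; `tail_integral` integrates the resulting tail bound.
-/

namespace MPacf82c
namespace UB

open MeasureTheory intervalIntegral

theorem poly_core {s V κ : ℝ} (hs1 : s ≤ 1) (hs0 : 0 ≤ s) (hVs : V ≤ s) (hκ : 0 ≤ κ) :
    s / 2 + V * (1 + s - V) / 2 - (max (V - κ) 0) ^ 3 / 12 ≤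
      s - ((max (s - κ) 0) ^ 3 / 12 - (max (s - κ) 0) ^ 4 / 32) := by
  obtain ⟨f, hf⟩ : ∃ f, f = s - V := ⟨_, rfl⟩
  have hf0 : 0 ≤ f := by linarith
  have hV : V = s - f := by linarith
  subst hV
  have e1 : s / 2 + (s - f) * (1 + s - (s - f)) / 2 = s - (f * (1 - s) + f ^ 2) / 2 := by ring
  rw [e1]
  have h1 : 0 ≤ f * (1 - s) := mul_nonneg hf0 (by linarith)
  rcases le_total s κ with h2 | h2
  · rw [max_eq_right (by linarith : s - κ ≤ 0)]
    have h3 : 0 ≤ (max (s - f - κ) 0) ^ 3 := by positivity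
    nlinarith [sq_nonneg f]
  · rw [max_eq_left (by linarith : 0 ≤ s - κ)]
    obtain ⟨u, hu⟩ : ∃ u, u = s - κ := ⟨_, rfl⟩
    have hu0 : 0 ≤ u := by linarith
    have hu1 : u ≤ 1 := by linarith
    rw [← hu]
    have h3 : s - f - κ = u - f := by linarith
    rw [h3]
    rcases le_total u f with h4 | h4
    · rw [max_eq_right (by linarith : u - f ≤ 0)]
      have h5 : u ^ 2 ≤ f ^ 2 := by nlinarith
      have h6 : u ^ 3 ≤ u ^ 2 := by nlinarith [sq_nonneg u]
      have h7 : 0 ≤ u ^ 4 := by positivity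
      nlinarith
    · rw [max_eq_left (by linarith : 0 ≤ u - f)]
      have h5 : u ^ 3 - 3 * u ^ 2 * f ≤ (u - f) ^ 3 := by
        have : (u - f) ^ 3 - (u ^ 3 - 3 * u ^ 2 * f) = f ^ 2 * (3 * u - f) := by ring
        have h6 : 0 ≤ f ^ 2 * (3 * u - f) := mul_nonneg (sq_nonneg f) (by linarith)
        linarith
      have h6 : 0 ≤ (f - u ^ 2 / 4) ^ 2 := sq_nonneg _
      nlinarith

theorem poly_bound {Λ h D κ ε η t : ℝ} {n N : ℕ} (hΛ : 0 < Λ) (hh : 0 < h) (hn : 0 < n)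
    (hκ : 0 ≤ κ) (hD : D ≤ κ * Λ) (hε0 : 0 ≤ ε) (hε : ε ≤ 1 / 2) (hnh : n * h ≤ Λ)
    (hnh' : (1 - ε) * Λ ≤ n * h) (hη : h ≤ η * Λ) (hη1 : η ≤ 1) (ht0 : 0 ≤ t) (ht : t ≤ Λ)
    (hN : N * h ≤ t + h) :
    t / (2 * Λ) + 1 / (2 * Λ * n ^ 2) *
        (n * (N * (Λ + t) - h * (N * (N - 1))) -
          (max (((N : ℝ) - 1) * h - D) 0) ^ 3 / (6 * h ^ 2)) ≤
      t / Λ + (2 * η + 6 * ε) -
        ((max (t / Λ - κ) 0) ^ 3 / 12 - (max (t / Λ - κ) 0) ^ 4 / 32) := by
  have hnR : (0 : ℝ) < n := by exact_mod_cast hn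
  obtain ⟨s, hs⟩ : ∃ s, s = t / Λ := ⟨_, rfl⟩
  obtain ⟨V, hV⟩ : ∃ V, V = ((N : ℝ) - 1) * h / Λ := ⟨_, rfl⟩
  obtain ⟨b, hb⟩ : ∃ b, b = h / Λ := ⟨_, rfl⟩
  obtain ⟨m, hm⟩ : ∃ m, m = n * h / Λ := ⟨_, rfl⟩
  have hts : t = s * Λ := by rw [hs]; field_simp
  have hhb : h = b * Λ := by rw [hb]; field_simp
  have hb0 : 0 < b := by rw [hb]; positivity
  have hbη : b ≤ η := by rw [hb, div_le_iff₀ hΛ]; exact hη
  have hm0 : 0 < m := by rw [hm]; positivity
  have hm1 : m ≤ 1 := by rw [hm, div_le_one hΛ]; exact hnh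
  have hm2 : 1 - ε ≤ m := by rw [hm, le_div_iff₀ hΛ]; exact hnh'
  have hmn : (n : ℝ) * b = m := by rw [hm, hb]; ring
  have hNV : (N : ℝ) * b = V + b := by rw [hV, hb]; field_simp; ring
  have hs0 : 0 ≤ s := by rw [hs]; positivity
  have hs1 : s ≤ 1 := by rw [hs, div_le_one hΛ]; exact ht
  have hVs : V ≤ s := by
    rw [hV, hs]
    exact div_le_div_of_nonneg_right (by linarith) hΛ.le
  have hVb : 0 ≤ V + b := by rw [← hNV]; positivity
  have hcore := poly_core hs1 hs0 hVs hκ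
  -- the cubic term
  have hX : (max (V - κ) 0) ^ 3 / 12 ≤ 1 / (2 * Λ * n ^ 2) *
      ((max (((N : ℝ) - 1) * h - D) 0) ^ 3 / (6 * h ^ 2)) := by
    have h1 : Λ * max (V - κ) 0 ≤ max (((N : ℝ) - 1) * h - D) 0 := by
      rw [mul_max_of_nonneg _ _ hΛ.le, mul_zero]
      refine max_le_max ?_ le_rfl
      have : Λ * V = ((N : ℝ) - 1) * h := by rw [hV]; field_simp
      rw [mul_sub, this]
      linarith
    have h2 : (Λ * max (V - κ) 0) ^ 3 ≤ (max (((N : ℝ) - 1) * h - D) 0) ^ 3 :=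
      pow_le_pow_left₀ (mul_nonneg hΛ.le (le_max_right _ _)) h1 3
    have h3 : 0 ≤ max (V - κ) 0 := le_max_right _ _
    calc (max (V - κ) 0) ^ 3 / 12 ≤ (max (V - κ) 0) ^ 3 / 12 / m ^ 2 := by
          rw [le_div_iff₀ (by positivity)]
          have h4 : m ^ 2 ≤ 1 := by nlinarith
          have h5 : 0 ≤ (max (V - κ) 0) ^ 3 / 12 := by positivity
          nlinarith
      _ = 1 / (2 * Λ * n ^ 2) * ((Λ * max (V - κ) 0) ^ 3 / (6 * h ^ 2)) := by
          rw [← hmn, hhb]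
          field_simp
          ring
      _ ≤ _ := by
          refine mul_le_mul_of_nonneg_left ?_ (by positivity)
          exact div_le_div_of_nonneg_right h2 (by positivity)
  -- the linear term
  have hY : 1 / (2 * Λ * n ^ 2) * (n * (N * (Λ + t) - h * (N * (N - 1)))) =
      (V + b) * (1 + s - V) / m / 2 := by
    rw [← hmn, ← hNV, hts]
    have e1 : V = (N : ℝ) * b - b := by linarith
    rw [e1, hhb]
    field_simp
    try ring
  have hZ : (V + b) * (1 + s - V) / m ≤ V * (1 + s - V) + 3 * η + 12 * ε := by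
    have h1 : 0 ≤ (V + b) * (1 + s - V) := mul_nonneg hVb (by linarith)
    have h5 : 1 ≤ (1 + 2 * ε) * m := by
      have h6 : (1 + 2 * ε) * (1 - ε) ≤ (1 + 2 * ε) * m :=
        mul_le_mul_of_nonneg_left hm2 (by linarith)
      nlinarith
    have h2 : (V + b) * (1 + s - V) / m ≤ (V + b) * (1 + s - V) * (1 + 2 * ε) := by
      rw [div_le_iff₀ hm0]
      calc (V + b) * (1 + s - V) = (V + b) * (1 + s - V) * 1 := by ring
        _ ≤ (V + b) * (1 + s - V) * ((1 + 2 * ε) * m) := mul_le_mul_of_nonneg_left h5 h1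
        _ = (V + b) * (1 + s - V) * (1 + 2 * ε) * m := by ring
    have a1 : V + b ≤ 2 := by linarith
    have a2 : 1 + s - V ≤ 3 := by linarith
    have h3 : (V + b) * (1 + s - V) ≤ 2 * 3 := mul_le_mul a1 a2 (by linarith) (by norm_num)
    have h4 : b * (1 + s - V) ≤ η * 3 := mul_le_mul hbη a2 (by linarith) (by linarith)
    have h7 : (V + b) * (1 + s - V) * ε ≤ 2 * 3 * ε := mul_le_mul_of_nonneg_right h3 hε0
    have h8 : (V + b) * (1 + s - V) * (1 + 2 * ε) =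
        V * (1 + s - V) + b * (1 + s - V) + 2 * ((V + b) * (1 + s - V) * ε) := by ring
    linarith
  rw [mul_sub, hY]
  have e2 : t / (2 * Λ) = s / 2 := by rw [hs]; field_simp
  rw [e2, ← hs]
  linarith

theorem int_max_pow {κ : ℝ} (hκ : 0 ≤ κ) (hκ1 : κ ≤ 1) (k : ℕ) :
    ∫ s in (0 : ℝ)..1, (max (s - κ) 0) ^ (k + 1) = (1 - κ) ^ (k + 2) / (k + 2) := by
  have hc : ∀ a b : ℝ, IntervalIntegrable (fun s : ℝ => (max (s - κ) 0) ^ (k + 1)) volume a b := by
    intro a b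
    refine Continuous.intervalIntegrable ?_ a b
    fun_prop
  rw [← integral_add_adjacent_intervals (hc 0 κ) (hc κ 1)]
  have h1 : ∫ s in (0 : ℝ)..κ, (max (s - κ) 0) ^ (k + 1) = 0 := by
    have : ∫ s in (0 : ℝ)..κ, (max (s - κ) 0) ^ (k + 1) = ∫ s in (0 : ℝ)..κ, (0 : ℝ) := by
      refine integral_congr fun s hs => ?_
      rw [Set.uIcc_of_le hκ] at hs
      rw [max_eq_right (by linarith [hs.2])]
      simp
    rw [this]
    simp
  have h2 : ∫ s in κ..(1 : ℝ), (max (s - κ) 0) ^ (k + 1) = (1 - κ) ^ (k + 2) / (k + 2) := by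
    have e1 : ∫ s in κ..(1 : ℝ), (max (s - κ) 0) ^ (k + 1) =
        ∫ s in κ..(1 : ℝ), (s - κ) ^ (k + 1) := by
      refine integral_congr fun s hs => ?_
      rw [Set.uIcc_of_le hκ1] at hs
      rw [max_eq_left (by linarith [hs.1])]
    rw [e1, integral_comp_sub_right (fun s => s ^ (k + 1)) κ, integral_pow, sub_self]
    push_cast
    simp
    ring
  rw [h1, h2, zero_add]

theorem tail_integral {Λ κ err : ℝ} (hΛ : 0 < Λ) (hκ : 0 ≤ κ) (hκ1 : κ ≤ 1) :
    ∫ t in (0 : ℝ)..Λ, (1 - (t / Λ + err -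
        ((max (t / Λ - κ) 0) ^ 3 / 12 - (max (t / Λ - κ) 0) ^ 4 / 32))) =
      Λ * (1 / 2 - err + (1 - κ) ^ 4 / 48 - (1 - κ) ^ 5 / 160) := by
  have h1 := integral_comp_div (a := 0) (b := Λ) (fun s => 1 - (s + err -
        ((max (s - κ) 0) ^ 3 / 12 - (max (s - κ) 0) ^ 4 / 32))) hΛ.ne'
  rw [h1, zero_div, div_self hΛ.ne', smul_eq_mul]
  congr 1
  have hc1 : IntervalIntegrable (fun s : ℝ => 1 - s - err) volume 0 1 :=
    Continuous.intervalIntegrable (by fun_prop) 0 1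
  have hc3 : IntervalIntegrable (fun s : ℝ => (max (s - κ) 0) ^ 3 / 12) volume 0 1 :=
    Continuous.intervalIntegrable (by fun_prop) 0 1
  have hc4 : IntervalIntegrable (fun s : ℝ => (max (s - κ) 0) ^ 4 / 32) volume 0 1 :=
    Continuous.intervalIntegrable (by fun_prop) 0 1
  have e1 : ∀ s : ℝ, 1 - (s + err - ((max (s - κ) 0) ^ 3 / 12 - (max (s - κ) 0) ^ 4 / 32)) =
      (1 - s - err) + ((max (s - κ) 0) ^ 3 / 12 - (max (s - κ) 0) ^ 4 / 32) := fun s => by ring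
  simp only [e1]
  rw [integral_add hc1 (hc3.sub hc4), integral_sub hc3 hc4, intervalIntegral.integral_div, intervalIntegral.integral_div,
    int_max_pow hκ hκ1 2, int_max_pow hκ hκ1 3]
  have e2 : ∫ s in (0 : ℝ)..1, (1 - s - err) = 1 / 2 - err := by
    rw [integral_sub (Continuous.intervalIntegrable (by fun_prop) 0 1)
      (Continuous.intervalIntegrable (by fun_prop) 0 1),
      integral_sub (Continuous.intervalIntegrable (by fun_prop) 0 1)
      (Continuous.intervalIntegrable (by fun_prop) 0 1)]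
    simp
    norm_num
  rw [e2]
  push_cast
  ring

end UB
end MPacf82c
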