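import Pool.Agent.Lib.MP_acf82c_lc.HiderMix

/-!
# Universal bound: a stationary hider at one of two distant points

For any two points `p`, `q` the hider guarantees `dist p q`: with `a = dist O p`, `b = dist O q`
he hides at `p` with probability `(a - b + dist p q) / (2 dist p q)` and at `q` otherwise; the
expected capture time is at least `(a + b + dist p q) / 2`.
-/

namespace MPacf82c
namespace UB

open Set MeasureTheory
open scoped NNReal ENNReal

variable {Q : Type} [MetricSpace Q]

/-- The real inequality. -/
theorem two_real {a b D α u v : ℝ} (hD : 0 < D) (hα : α * (2 * D) = a - b + D) (hα0 : 0 ≤ α)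
    (hα1 : α ≤ 1) (hab : D ≤ a + b) (hu : a ≤ u) (hv : b ≤ v) (huv : D ≤ |u - v|) :
    D ≤ α * u + (1 - α) * v := by
  rcases le_total u v with h | h
  · rw [abs_of_nonpos (by linarith)] at huv
    have h1 : (1 - α) * (u + D) ≤ (1 - α) * v := mul_le_mul_of_nonneg_left (by linarith)
      (by linarith)
    nlinarith
  · rw [abs_of_nonneg (by linarith)] at huv
    have h1 : α * (v + D) ≤ α * u := mul_le_mul_of_nonneg_left (by linarith) hα0
    nlinarith

/-- The first visit of a point. -/
theorem first_visit {S : ℝ≥0 → Q} (hS : Continuous S) (p : Q) :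
    (∀ u, S u ≠ p) ∨ ∃ u, S u = p ∧ ∀ u', S u' = p → u ≤ u' := by
  by_cases h : ∃ u, S u = p
  · right
    have hc : IsClosed {u | S u = p} := isClosed_eq hS continuous_const
    have hne : {u | S u = p}.Nonempty := h
    refine ⟨sInf {u | S u = p}, hc.csInf_mem hne (OrderBot.bddBelow _), ?_⟩
    intro u' hu'
    exact csInf_le (OrderBot.bddBelow _) hu'
  · left
    push Not at h
    exact h

theorem capture_static (S : ℝ≥0 → Q) (p : Q) {c : ℝ≥0∞} (h : ∀ u : ℝ≥0, S u = p → c ≤ u) :
    c ≤ captureTime S (fun _ => p) := by
  unfold captureTime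
  exact le_iInf fun u => le_iInf fun hu => h u hu

theorem two_point {w : ℝ≥0} (O p q : Q) :
    HiderGuarantees w O (ENNReal.ofReal (dist p q)) := by
  classical
  set D := dist p q with hDd
  set a := dist O p with ha
  set b := dist O q with hb
  have hD0 : 0 ≤ D := dist_nonneg
  have ha0 : 0 ≤ a := dist_nonneg
  have hb0 : 0 ≤ b := dist_nonneg
  have hab : D ≤ a + b := by
    have := dist_triangle_left p q O
    linarith
  have hba : b ≤ a + D := dist_triangle O p q
  have hab' : a ≤ b + D := by
    have := dist_triangle O q p
    rw [dist_comm q p] at this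
    linarith
  obtain ⟨α, hα0, hα1, hα⟩ : ∃ α : ℝ, 0 ≤ α ∧ α ≤ 1 ∧ α * (2 * D) = a - b + D := by
    rcases hD0.lt_or_eq with h | h
    · refine ⟨(a - b + D) / (2 * D), div_nonneg (by linarith) (by linarith), ?_, ?_⟩
      · rw [div_le_one (by linarith)]
        linarith
      · field_simp
    · exact ⟨0, le_rfl, zero_le_one, by linarith⟩
  refine mix_guarantee (ι := Bool) (Ω0 := Unit) (q := fun c => if c then α else 1 - α) ?_ ?_
    (fun _ => Measure.dirac ()) (fun _ => inferInstance) (fun c _ _ => if c then p else q)
    (fun c _ => LipschitzWith.const' _) (fun c t => measurable_const) ?_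
  · intro c
    cases c
    · simpa using hα1
    · simpa using hα0
  · simp
  · intro S hS0 hS
    rw [Fintype.sum_bool]
    simp only [if_true, Bool.false_eq_true, if_false, lintegral_dirac]
    have hdist : ∀ u v : ℝ≥0, dist (S u) (S v) ≤ |(u : ℝ) - v| := by
      intro u v
      have := hS.dist_le_mul u v
      rwa [NNReal.coe_one, one_mul, NNReal.dist_eq] at this
    have hp : ∀ u : ℝ≥0, S u = p → a ≤ u := by
      intro u hu
      have := hdist 0 u
      rw [hS0, hu, NNReal.coe_zero, zero_sub, abs_neg, abs_of_nonneg u.coe_nonneg] at this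
      exact this
    have hq : ∀ u : ℝ≥0, S u = q → b ≤ u := by
      intro u hu
      have := hdist 0 u
      rw [hS0, hu, NNReal.coe_zero, zero_sub, abs_neg, abs_of_nonneg u.coe_nonneg] at this
      exact this
    have hpE : ENNReal.ofReal a ≤ captureTime S (fun _ => p) :=
      capture_static S p fun u hu => by
        rw [← ENNReal.ofReal_coe_nnreal]
        exact ENNReal.ofReal_le_ofReal (hp u hu)
    have hqE : ENNReal.ofReal b ≤ captureTime S (fun _ => q) :=
      capture_static S q fun u hu => by
        rw [← ENNReal.ofReal_coe_nnreal]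
        exact ENNReal.ofReal_le_ofReal (hq u hu)
    rcases hD0.eq_or_lt with hDz | hDpos
    · rw [← hDz]
      simp
    rcases first_visit hS.continuous p with hnp | ⟨u, hu, humin⟩
    · have h1 : captureTime S (fun _ => p) = ⊤ := by
        refine top_le_iff.1 (capture_static S p fun u hu => absurd hu (hnp u))
      rcases hα0.eq_or_lt with h2 | h2
      · rw [← h2]
        simp only [ENNReal.ofReal_zero, zero_mul, zero_add, sub_zero, ENNReal.ofReal_one, one_mul]
        refine le_trans (ENNReal.ofReal_le_ofReal ?_) hqE
        rw [← h2] at hα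
        linarith
      · rw [h1, ENNReal.mul_top (by simpa using h2)]
        simp
    rcases first_visit hS.continuous q with hnq | ⟨v, hv, hvmin⟩
    · have h1 : captureTime S (fun _ => q) = ⊤ := by
        refine top_le_iff.1 (capture_static S q fun u hu => absurd hu (hnq u))
      rcases hα1.eq_or_lt with h2 | h2
      · rw [h2]
        simp only [ENNReal.ofReal_zero, zero_mul, add_zero, sub_self, ENNReal.ofReal_one, one_mul]
        refine le_trans (ENNReal.ofReal_le_ofReal ?_) hpE
        rw [h2] at hα
        linarith
      · rw [h1, ENNReal.mul_top (by simpa using h2)]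
        simp
    have e1 : ENNReal.ofReal u ≤ captureTime S (fun _ => p) :=
      capture_static S p fun u' hu' => by
        rw [ENNReal.ofReal_coe_nnreal]
        exact_mod_cast humin u' hu'
    have e2 : ENNReal.ofReal v ≤ captureTime S (fun _ => q) :=
      capture_static S q fun u' hu' => by
        rw [ENNReal.ofReal_coe_nnreal]
        exact_mod_cast hvmin u' hu'
    have huv : D ≤ |(u : ℝ) - v| := by
      have := hdist u v
      rwa [hu, hv] at this
    have h3 := two_real hDpos hα hα0 hα1 hab (hp u hu) (hq v hv) huv
    calc ENNReal.ofReal D ≤ ENNReal.ofReal (α * u + (1 - α) * v) := ENNReal.ofReal_le_ofReal h3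
      _ = ENNReal.ofReal α * ENNReal.ofReal u + ENNReal.ofReal (1 - α) * ENNReal.ofReal v := by
          rw [ENNReal.ofReal_add (mul_nonneg hα0 u.coe_nonneg)
            (mul_nonneg (by linarith) v.coe_nonneg), ENNReal.ofReal_mul hα0,
            ENNReal.ofReal_mul (by linarith)]
      _ ≤ _ := by gcongr

end UB
end MPacf82c
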