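import Pool.Agent.Lib.MP_acf82c_lc.U.SumEnds
import Pool.Agent.Lib.MP_acf82c_lc.U.Poly
import Pool.Agent.Lib.MP_acf82c_lc.U.Two
import Pool.Agent.Lib.MP_acf82c_lc.Samples

/-!
# Universal bound: the value is at least `0.501` times the length for every network
-/

namespace MPacf82c
namespace UB

open Set MeasureTheory
open scoped NNReal ENNReal

variable {Q : Type} [MetricSpace Q]

section pair

variable [MeasurableSpace Q] [BorelSpace Q]

/-- The three components of the strategy belonging to a pair, together. -/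
theorem pair_bound (N : Network Q) {x y : Q} {r : ℝ → Q} (hr : IsGeo r x y)
    (hlt : dist x y < N.length) {S : ℝ≥0 → Q} (hS : LipschitzWith 1 S) {t : ℝ≥0}
    (ht : (t : ℝ) ≤ N.length) {Vx Vy : Prop} [Decidable Vx] [Decidable Vy] {αx βx αy βy : ℝ}
    (hx : ∀ u ∈ Icc 0 (t : ℝ), ext S u = x → Vx ∧ αx ≤ u ∧ u ≤ βx)
    (hy : ∀ u ∈ Icc 0 (t : ℝ), ext S u = y → Vy ∧ αy ≤ u ∧ u ≤ βy)
    (hVx : Vx → 0 ≤ αx ∧ αx ≤ βx ∧ βx ≤ t) (hVy : Vy → 0 ≤ αy ∧ αy ≤ βy ∧ βy ≤ t) :
    (N.length - dist x y) *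
        (Pst (r '' Icc 0 (dist x y)) (caught S (Hst (Q := Q)) t)).toReal +
      (N.length + dist x y) / 2 *
        (Pmv x (dist x y) N.length (caught S (Hmv r) t)).toReal +
      (N.length + dist x y) / 2 *
        (Pmv y (dist x y) N.length (caught S (Hmv fun s => r (dist x y - s)) t)).toReal ≤
      t + (ends N.length Vx Vy (dist x y) αx αy βy +
        ends N.length Vy Vx (dist y x) αy αx βx) / 2 := by
  have hl0 : 0 ≤ dist x y := dist_nonneg
  have hΛ : 0 < N.length := lt_of_le_of_lt hl0 hlt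
  obtain ⟨-, h1⟩ := st_bound N hr hlt hS t
  obtain ⟨-, h2⟩ := mv_bound (r := r) x hl0 hΛ S t
  obtain ⟨-, h3⟩ := mv_bound (r := fun s => r (dist x y - s)) y hl0 hΛ S t
  have h4 := fw_bound hr (S := ext S) (Λ := N.length) ht
    (fun u hu h => ⟨(hx u hu h).1, (hx u hu h).2.1⟩)
    (fun u hu h => ⟨(hy u hu h).1, (hy u hu h).2.2⟩) hVx hVy
  have h5 := fw_bound hr.rev (S := ext S) (Λ := N.length) ht
    (fun u hu h => ⟨(hy u hu h).1, (hy u hu h).2.1⟩)
    (fun u hu h => ⟨(hx u hu h).1, (hx u hu h).2.2⟩) hVy hVx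
  have h6 := fw_bw hr (ext_lip hS) t
  rw [← h2] at h4
  rw [dist_comm y x] at h5 ⊢
  rw [dist_comm y x] at h6
  rw [← h3] at h5
  linarith

end pair

theorem samples_count (N : Network Q) {h : ℝ} (hh : 0 < h) :
    ((∑ e, ⌊N.len e / h⌋₊ : ℕ) : ℝ) * h ≤ N.length ∧
      N.length - Fintype.card N.Arc * h ≤ ((∑ e, ⌊N.len e / h⌋₊ : ℕ) : ℝ) * h := by
  have e1 : ((∑ e, ⌊N.len e / h⌋₊ : ℕ) : ℝ) * h = ∑ e, (⌊N.len e / h⌋₊ : ℝ) * h := by
    push_cast
    rw [Finset.sum_mul]
  rw [e1]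
  unfold Network.length
  constructor
  · refine Finset.sum_le_sum fun e _ => ?_
    have h2 : (⌊N.len e / h⌋₊ : ℝ) ≤ N.len e / h :=
      Nat.floor_le (div_nonneg (N.len_pos e).le hh.le)
    rwa [le_div_iff₀ hh] at h2
  · have e2 : ∑ e, N.len e - Fintype.card N.Arc * h = ∑ e, (N.len e - h) := by
      rw [Finset.sum_sub_distrib]
      simp
    rw [e2]
    refine Finset.sum_le_sum fun e _ => ?_
    have h2 := Nat.lt_floor_add_one (N.len e / h)
    rw [div_lt_iff₀ hh] at h2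
    linarith

theorem length_pos (N : Network Q) (O : Q) : 0 < N.length := by
  obtain ⟨e, -, -, -⟩ := N.cover O
  unfold Network.length
  exact Finset.sum_pos (fun e _ => N.len_pos e) ⟨e, Finset.mem_univ e⟩

/-- The mixture with samples at the spacing `h`. -/
theorem small_h (N : Network Q) (O : Q) {w : ℝ≥0} (hw : 1 ≤ w) {κ : ℝ} (hκ0 : 0 ≤ κ)
    (hκ1 : κ < 1) (hD : ∀ x y : Q, dist x y ≤ κ * N.length) {h ε η : ℝ} (hh : 0 < h)
    (hle : ∀ e, h ≤ N.len e) (hε0 : 0 ≤ ε) (hε : ε ≤ 1 / 2)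
    (hcard : Fintype.card N.Arc * h ≤ ε * N.length) (hη : h ≤ η * N.length) (hη1 : η ≤ 1) :
    HiderGuarantees w O (ENNReal.ofReal
      (N.length * (1 / 2 - (2 * η + 6 * ε) + (1 - κ) ^ 4 / 48 - (1 - κ) ^ 5 / 160))) := by
  classical
  let _ : MeasurableSpace Q := borel Q
  have _ : BorelSpace Q := ⟨rfl⟩
  have hΛ := length_pos N O
  set Λ := N.length with hΛd
  obtain ⟨n, hn⟩ : ∃ n : ℕ, n = ∑ e, ⌊N.len e / h⌋₊ := ⟨_, rfl⟩
  obtain ⟨arcOf, pos, hpos, hsep, -, -⟩ := samples N hh hle hn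
  obtain ⟨hc1, hc2⟩ := samples_count N hh
  rw [← hn] at hc1 hc2
  have hnh : (1 - ε) * Λ ≤ n * h := by
    rw [← hΛd] at hc2
    linarith
  have hn0 : 0 < n := by
    rcases Nat.eq_zero_or_pos n with h0 | h0
    · rw [h0] at hnh
      have : 0 < (1 - ε) * Λ := mul_pos (by linarith) hΛ
      simp at hnh
      linarith
    · exact h0
  have hnR : (0 : ℝ) < n := by exact_mod_cast hn0
  set x : Fin n → Q := fun i => N.pt (arcOf i) (pos i) with hx
  choose r hr using fun (p : Fin n × Fin n) => exists_geo N (x p.1) (x p.2)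
  set l : Fin n × Fin n → ℝ := fun p => dist (x p.1) (x p.2) with hl
  have hl0 : ∀ p, 0 ≤ l p := fun p => dist_nonneg
  have hlκ : ∀ p, l p ≤ κ * Λ := fun p => hD _ _
  have hlt : ∀ p, l p < Λ := fun p => by
    refine (hlκ p).trans_lt ?_
    nlinarith
  -- the mixture
  let q : (Fin n × Fin n) × Fin 3 → ℝ := fun i =>
    if i.2 = 0 then (Λ - l i.1) / (2 * Λ * n ^ 2) else (Λ + l i.1) / (4 * Λ * n ^ 2)
  let P : (Fin n × Fin n) × Fin 3 → Measure (Q × ℝ) := fun i =>
    if i.2 = 0 then Pst (r i.1 '' Icc 0 (l i.1)) else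
      if i.2 = 1 then Pmv (x i.1.1) (l i.1) Λ else Pmv (x i.1.2) (l i.1) Λ
  let H : (Fin n × Fin n) × Fin 3 → Q × ℝ → ℝ≥0 → Q := fun i =>
    if i.2 = 0 then Hst else
      if i.2 = 1 then Hmv (r i.1) else Hmv fun s => r i.1 (l i.1 - s)
  have hrev : ∀ p, LipschitzWith 1 fun s => r p (l p - s) := fun p => (hr p).rev.lip
  have hmvL : ∀ {ρ : ℝ → Q}, LipschitzWith 1 ρ → ∀ ω : Q × ℝ, LipschitzWith w (Hmv ρ ω) := by
    intro ρ hρ ω
    refine LipschitzWith.weaken ?_ hw
    refine LipschitzWith.of_dist_le_mul fun a b => ?_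
    have h1 := hρ.dist_le_mul ((a : ℝ) - ω.2) ((b : ℝ) - ω.2)
    rw [Real.dist_eq, sub_sub_sub_cancel_right] at h1
    rw [NNReal.dist_eq]
    exact h1
  have hmvM : ∀ {ρ : ℝ → Q}, LipschitzWith 1 ρ → ∀ t : ℝ≥0,
      Measurable fun ω : Q × ℝ => Hmv ρ ω t := by
    intro ρ hρ t
    have h1 : Measurable fun ω : Q × ℝ => (t : ℝ) - ω.2 := measurable_const.sub measurable_snd
    exact hρ.continuous.measurable.comp h1
  have key : HiderGuarantees w O (ENNReal.ofReal (∫ t in (0 : ℝ)..Λ,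
      (1 - (t / Λ + (2 * η + 6 * ε) -
        ((max (t / Λ - κ) 0) ^ 3 / 12 - (max (t / Λ - κ) 0) ^ 4 / 32))))) := by
    refine mix_tail (q := q) ?_ ?_ P ?_ H ?_ ?_ ?_ hΛ.le (by fun_prop) ?_
    · rintro ⟨p, c⟩
      have h1 := hlt p
      have h2 := hl0 p
      simp only [q]
      split_ifs
      · exact div_nonneg (by linarith) (by positivity)
      · exact div_nonneg (by linarith) (by positivity)
    · rw [Fintype.sum_prod_type]
      have h1 : ∀ p : Fin n × Fin n, ∑ c : Fin 3, q (p, c) = 1 / n ^ 2 := by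
        intro p
        rw [Fin.sum_univ_three]
        simp only [q, if_true, one_ne_zero, if_false, Fin.reduceEq]
        field_simp
        ring
      rw [Finset.sum_congr rfl fun p _ => h1 p, Finset.sum_const, Finset.card_univ,
        Fintype.card_prod, Fintype.card_fin, nsmul_eq_mul]
      push_cast
      field_simp
    · rintro ⟨p, c⟩
      have e0 : (0 : ℝ≥0) ≤ 0 := le_rfl
      simp only [P]
      split_ifs
      · exact (st_bound N (hr p) (hlt p) (S := fun _ => O) (LipschitzWith.const' O) 0).1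
      · exact (mv_bound (r := r p) _ (hl0 p) hΛ (fun _ => O) 0).1
      · exact (mv_bound (r := r p) _ (hl0 p) hΛ (fun _ => O) 0).1
    · rintro ⟨p, c⟩ ω
      simp only [H]
      split_ifs
      · exact LipschitzWith.const' ω.1
      · exact hmvL (hr p).lip ω
      · exact hmvL (hrev p) ω
    · rintro ⟨p, c⟩ t
      simp only [H]
      split_ifs
      · exact measurable_fst
      · exact hmvM (hr p).lip t
      · exact hmvM (hrev p) t
    · rintro ⟨p, c⟩ S hS t
      simp only [H]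
      split_ifs
      · exact meas_st hS t
      · exact meas_mv hS (hr p).lip t
      · exact meas_mv hS (hrev p) t
    · intro S hS0 hS t ht
      have hS' := ext_lip hS
      -- visits of the samples
      let V : Fin n → Prop := fun i => ∃ u ∈ Icc 0 (t : ℝ), ext S u = x i
      have hvis : ∀ i, ∃ a b : ℝ, (V i → a ∈ Icc 0 (t : ℝ) ∧ b ∈ Icc 0 (t : ℝ) ∧ ext S a = x i ∧
          ext S b = x i) ∧ ∀ u ∈ Icc 0 (t : ℝ), ext S u = x i → a ≤ u ∧ u ≤ b := by
        intro i
        by_cases hV : V i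
        · obtain ⟨a, b, h1, h2, h3, h4, h5⟩ := visits hS'.continuous (t : ℝ) (x i) hV
          exact ⟨a, b, fun _ => ⟨h1, h2, h3, h4⟩, h5⟩
        · exact ⟨0, 0, fun h => absurd h hV, fun u hu h => absurd ⟨u, hu, h⟩ hV⟩
      choose α β hαβ hmm using hvis
      have hV' : ∀ i, V i → 0 ≤ α i ∧ α i ≤ β i ∧ β i ≤ t ∧ ext S (α i) = x i ∧
          ext S (β i) = x i := by
        intro i hi
        obtain ⟨h1, h2, h3, h4⟩ := hαβ i hi
        exact ⟨h1.1, (hmm i (α i) h1 h3).2, h2.2, h3, h4⟩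
      obtain ⟨M, hM, hsum⟩ := sum_ends (Λ := Λ) (D := κ * Λ) hh (mul_nonneg hκ0 hΛ.le)
        t.coe_nonneg hsep (fun i j => hD _ _) hS' V α β hV'
      have hpoly := poly_bound (D := κ * Λ) (t := t) hΛ hh hn0 hκ0 le_rfl hε0 hε hc1 hnh hη hη1
        t.coe_nonneg ht hM
      -- one pair
      have hpair : ∀ p : Fin n × Fin n,
          ∑ c : Fin 3, q (p, c) * (P (p, c) (caught S (H (p, c)) t)).toReal ≤
          1 / (2 * Λ * n ^ 2) * (t + (ends Λ (V p.1) (V p.2) (dist (x p.1) (x p.2)) (α p.1)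
            (α p.2) (β p.2) + ends Λ (V p.2) (V p.1) (dist (x p.2) (x p.1)) (α p.2)
            (α p.1) (β p.1)) / 2) := by
        intro p
        have h1 := pair_bound N (hr p) (hlt p) hS ht
          (fun u hu h => ⟨⟨u, hu, h⟩, hmm p.1 u hu h⟩)
          (fun u hu h => ⟨⟨u, hu, h⟩, hmm p.2 u hu h⟩)
          (fun h => ⟨(hV' p.1 h).1, (hV' p.1 h).2.1, (hV' p.1 h).2.2.1⟩)
          (fun h => ⟨(hV' p.2 h).1, (hV' p.2 h).2.1, (hV' p.2 h).2.2.1⟩)
        rw [Fin.sum_univ_three]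
        simp only [q, P, H, if_true, one_ne_zero, if_false, Fin.reduceEq]
        have h2 : (0 : ℝ) ≤ 1 / (2 * Λ * n ^ 2) := by positivity
        refine le_trans (le_of_eq ?_) (mul_le_mul_of_nonneg_left h1 h2)
        simp only [hl]
        field_simp
        ring
      rw [Fintype.sum_prod_type]
      refine (Finset.sum_le_sum fun p _ => hpair p).trans ?_
      have e1 : ∑ p : Fin n × Fin n, 1 / (2 * Λ * n ^ 2) * ((t : ℝ) +
          (ends Λ (V p.1) (V p.2) (dist (x p.1) (x p.2)) (α p.1)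
            (α p.2) (β p.2) + ends Λ (V p.2) (V p.1) (dist (x p.2) (x p.1)) (α p.2)
            (α p.1) (β p.1)) / 2) =
          t / (2 * Λ) + 1 / (2 * Λ * n ^ 2) * ∑ j, ∑ k,
            ends Λ (V j) (V k) (dist (x j) (x k)) (α j) (α k) (β k) := by
        rw [← Finset.mul_sum, Finset.sum_add_distrib, ← Finset.sum_div, Finset.sum_add_distrib,
          Fintype.sum_prod_type, Fintype.sum_prod_type, Fintype.sum_prod_type]
        have e2 : ∑ j : Fin n, ∑ k : Fin n,
            ends Λ (V k) (V j) (dist (x k) (x j)) (α k) (α j) (β j) =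
            ∑ j, ∑ k, ends Λ (V j) (V k) (dist (x j) (x k)) (α j) (α k) (β k) :=
          Finset.sum_comm
        simp only [e2, Finset.sum_const, Finset.card_univ, Fintype.card_fin, nsmul_eq_mul]
        field_simp
        ring
      rw [e1]
      have e3 : 1 / (2 * Λ * n ^ 2) * ∑ j, ∑ k,
            ends Λ (V j) (V k) (dist (x j) (x k)) (α j) (α k) (β k) ≤
          1 / (2 * Λ * n ^ 2) * (n * (M * (Λ + t) - h * (M * (M - 1))) -
          (max (((M : ℝ) - 1) * h - κ * Λ) 0) ^ 3 / (6 * h ^ 2)) :=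
        mul_le_mul_of_nonneg_left hsum (by positivity)
      linarith
  rwa [tail_integral hΛ hκ0 hκ1.le] at key

end UB
end MPacf82c
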