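import Pool.Agent.Lib.MP_acf82c_lc.U.Haus
import Pool.Agent.Lib.MP_acf82c_lc.RealImage

/-!
# Universal bound: meeting a traveller on a geodesic

A traveller starts at the time `θ` and runs along the geodesic `r`; the reversed traveller runs
backwards. For a `1`-Lipschitz searcher path the two sets of bad starting times have together at
most twice the measure of the time the searcher spends on the geodesic: on it the position is
`dist x (S u)`, so the bad `θ` are in the images under `u - dist x (S u)` and
`u + dist x (S u) - dist x y`, the derivatives of which add up to `2`.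
-/

namespace MPacf82c
namespace UB

open Set MeasureTheory
open scoped NNReal ENNReal

variable {Q : Type} [MetricSpace Q]

theorem vol_shift (c : ℝ) (A : Set ℝ) : volume ((fun t => t - c) '' A) = volume A := by
  have h : (fun t => t - c) '' A = (fun t => t + c) ⁻¹' A := by
    ext t
    constructor
    · rintro ⟨s, hs, rfl⟩
      simpa using hs
    · intro ht
      exact ⟨t + c, ht, by simp⟩
  rw [h, measure_preimage_add_right]

/-- The time spent on the geodesic. -/
def onSet (S r : ℝ → Q) (t l : ℝ) : Set ℝ := {u | u ∈ Icc 0 t ∧ S u ∈ r '' Icc 0 l}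

theorem onSet_subset (S r : ℝ → Q) (t l : ℝ) : onSet S r t l ⊆ Icc 0 t := fun _ h => h.1

theorem onSet_ne_top (S r : ℝ → Q) (t l : ℝ) : volume (onSet S r t l) ≠ ⊤ :=
  ne_top_of_le_ne_top (by simp [Real.volume_Icc]) (measure_mono (onSet_subset S r t l))

theorem onSet_meas {S r : ℝ → Q} (hS : Continuous S) (hr : Continuous r) (t l : ℝ) :
    MeasurableSet (onSet S r t l) :=
  measurableSet_Icc.inter ((isCompact_Icc.image hr).isClosed.preimage hS).measurableSet

/-- The bad starting times (forward, backward). -/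
def badF (S r : ℝ → Q) (t l : ℝ) : Set ℝ :=
  {θ : ℝ | ∃ u ∈ Icc 0 t, θ ≤ u ∧ u ≤ θ + l ∧ S u = r (u - θ)}

def badB (S r : ℝ → Q) (t l : ℝ) : Set ℝ :=
  {θ : ℝ | ∃ u ∈ Icc 0 t, θ ≤ u ∧ u ≤ θ + l ∧ S u = r (l - (u - θ))}

theorem badF_subset (S r : ℝ → Q) (t l : ℝ) : badF S r t l ⊆ Icc (-l) t := by
  rintro θ ⟨u, hu, h1, h2, -⟩
  exact ⟨by linarith [hu.1], by linarith [hu.2]⟩

theorem badB_subset (S r : ℝ → Q) (t l : ℝ) : badB S r t l ⊆ Icc (-l) t := by
  rintro θ ⟨u, hu, h1, h2, -⟩
  exact ⟨by linarith [hu.1], by linarith [hu.2]⟩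

theorem badF_ne_top (S r : ℝ → Q) (t l : ℝ) : volume (badF S r t l) ≠ ⊤ :=
  ne_top_of_le_ne_top (by simp [Real.volume_Icc]) (measure_mono (badF_subset S r t l))

theorem badB_ne_top (S r : ℝ → Q) (t l : ℝ) : volume (badB S r t l) ≠ ⊤ :=
  ne_top_of_le_ne_top (by simp [Real.volume_Icc]) (measure_mono (badB_subset S r t l))

theorem meet_two {x y : Q} {r : ℝ → Q} (hr : IsGeo r x y) {S : ℝ → Q} (hS : LipschitzWith 1 S)
    (t : ℝ) :
    (volume (badF S r t (dist x y))).toReal + (volume (badB S r t (dist x y))).toReal ≤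
      2 * (volume (onSet S r t (dist x y))).toReal := by
  set l := dist x y with hl
  set U := onSet S r t l with hU
  have hUm : MeasurableSet U := onSet_meas hS.continuous hr.lip.continuous t l
  have hUf : volume U ≠ ⊤ := onSet_ne_top S r t l
  set f : ℝ → ℝ := fun u => dist x (S u) with hf
  set g : ℝ → ℝ := fun u => - dist x (S u) with hg
  have hfL : LipschitzWith 1 f := by
    have := (LipschitzWith.dist_right x).comp hS
    rwa [one_mul] at this
  have hgL : LipschitzWith 1 g := by
    refine LipschitzWith.of_dist_le_mul fun a b => ?_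
    have h1 := hfL.dist_le_mul a b
    simp only [hg]
    rw [dist_neg_neg]
    exact h1
  have hF : volume (badF S r t l) ≤ volume ((fun u => u + g u / 1) '' U) := by
    refine measure_mono ?_
    rintro θ ⟨u, hu, h1, h2, h3⟩
    have h4 : dist x (S u) = u - θ := by
      rw [h3]
      exact hr.pos _ (by linarith) (by linarith)
    refine ⟨u, ⟨hu, ⟨u - θ, ⟨by linarith, by linarith⟩, h3.symm⟩⟩, ?_⟩
    simp only [hg, h4]
    ring
  have hB : volume (badB S r t l) ≤ volume ((fun u => u + f u / 1) '' U) := by
    rw [← vol_shift l ((fun u => u + f u / 1) '' U)]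
    refine measure_mono ?_
    rintro θ ⟨u, hu, h1, h2, h3⟩
    have h4 : dist x (S u) = l - (u - θ) := by
      rw [h3]
      exact hr.pos _ (by linarith) (by linarith)
    refine ⟨u + f u / 1, ⟨u, ⟨hu, ⟨l - (u - θ), ⟨by linarith, by linarith⟩, h3.symm⟩⟩, rfl⟩, ?_⟩
    simp only [hf, h4]
    ring
  have hbd : ∀ {k : ℝ → ℝ}, LipschitzWith 1 k → ∀ u, |deriv k u| ≤ 1 := by
    intro k hk u
    have := norm_deriv_le_of_lipschitz (x₀ := u) hk
    simpa using this
  have hfin : ∀ {k : ℝ → ℝ}, LipschitzWith 1 k →
      volume ((fun u => u + k u / 1) '' U) ≠ ⊤ := by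
    intro k hk
    have hc : Continuous (fun u : ℝ => u + k u / 1) := by
      have := hk.continuous
      fun_prop
    have hk : volume ((fun u : ℝ => u + k u / 1) '' Icc 0 t) ≠ ⊤ :=
      ((isCompact_Icc (a := (0 : ℝ)) (b := t)).image hc).measure_lt_top.ne
    exact ne_top_of_le_ne_top hk (measure_mono (image_mono (onSet_subset S r t l)))
  have e1 := image_measure_le hgL one_pos hUm hUf
    (Filter.Eventually.of_forall fun u _ => hbd hgL u)
  have e2 := image_measure_le hfL one_pos hUm hUf
    (Filter.Eventually.of_forall fun u _ => hbd hfL u)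
  have d1 : ∀ u, deriv g u = - deriv f u := by
    intro u
    simp only [hg, hf]
    exact deriv.fun_neg
  have hint : ∀ {k : ℝ → ℝ}, LipschitzWith 1 k →
      IntegrableOn (fun u => 1 + deriv k u / 1) U := by
    intro k hk
    refine Measure.integrableOn_of_bounded (M := 2) hUf
      (measurable_const.add ((measurable_deriv k).div_const 1)).aestronglyMeasurable ?_
    refine Filter.Eventually.of_forall fun u => ?_
    have h1 := hbd hk u
    rw [div_one, Real.norm_eq_abs]
    calc |1 + deriv k u| ≤ |(1 : ℝ)| + |deriv k u| := abs_add_le _ _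
      _ ≤ 2 := by rw [abs_one]; linarith
  have hsum : (∫ u in U, (1 + deriv g u / 1)) + (∫ u in U, (1 + deriv f u / 1)) =
      2 * (volume U).toReal := by
    rw [← integral_add (hint hgL) (hint hfL)]
    have : ∀ u, (1 + deriv g u / 1) + (1 + deriv f u / 1) = (2 : ℝ) := by
      intro u
      rw [d1]
      ring
    simp only [this]
    simp [Measure.real, mul_comm]
  have e3 := ENNReal.toReal_mono (hfin hgL) hF
  have e4 := ENNReal.toReal_mono (hfin hfL) hB
  linarith

end UB
end MPacf82c
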