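import Pool.Agent.Lib.MP_acf82c_lc.HiderMix

/-!
# Universal bound: mixtures of hider strategies and tails of the capture time

If for every searcher path the probability of a capture up to the time `t` is at most `1 - g t`
for all `t ≤ Λ`, then the hider guarantees the integral of `g` over `[0, Λ]`.
-/

namespace MPacf82c
namespace UB

open Set MeasureTheory
open scoped NNReal ENNReal

variable {Q : Type} [MetricSpace Q]

/-- The paths for which the hider is caught up to the time `t`. -/
def caught {Ω : Type} (S : ℝ≥0 → Q) (H : Ω → ℝ≥0 → Q) (t : ℝ≥0) : Set Ω :=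
  {ω | ∃ u ≤ t, S u = H ω u}

omit [MetricSpace Q] in
theorem caught_mono {Ω : Type} (S : ℝ≥0 → Q) (H : Ω → ℝ≥0 → Q) {s t : ℝ≥0} (h : s ≤ t) :
    caught S H s ⊆ caught S H t := by
  rintro ω ⟨u, hu, h1⟩
  exact ⟨u, hu.trans h, h1⟩

omit [MetricSpace Q] in
theorem captureTime_meas {Ω : Type} [MeasurableSpace Ω] {S : ℝ≥0 → Q} {H : Ω → ℝ≥0 → Q}
    (hm : ∀ t : ℝ≥0, MeasurableSet (caught S H t)) :
    Measurable fun ω => captureTime S (H ω) := by
  refine measurable_of_Iio fun a => ?_
  have h1 : (fun ω => captureTime S (H ω)) ⁻¹' Iio a =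
      ⋃ (q : ℚ) (_ : ((Real.toNNReal (q : ℝ) : ℝ≥0) : ℝ≥0∞) < a),
        caught S H (Real.toNNReal (q : ℝ)) := by
    ext ω
    simp only [mem_preimage, mem_Iio, mem_iUnion, captureTime, iInf_lt_iff]
    constructor
    · rintro ⟨u, hu, h2⟩
      obtain ⟨q, -, h3, h4⟩ := ENNReal.lt_iff_exists_rat_btwn.1 h2
      refine ⟨q, h4, u, ?_, hu⟩
      exact_mod_cast h3.le
    · rintro ⟨q, h2, u, hu, h3⟩
      refine ⟨u, h3, lt_of_le_of_lt ?_ h2⟩
      exact_mod_cast hu
  rw [h1]
  exact MeasurableSet.iUnion fun q => MeasurableSet.iUnion fun _ => hm _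

omit [MetricSpace Q] in
theorem le_captureTime {Ω : Type} {S : ℝ≥0 → Q} {H : Ω → ℝ≥0 → Q} {ω : Ω} {t : ℝ≥0}
    (h : ω ∉ caught S H t) : (t : ℝ≥0∞) ≤ captureTime S (H ω) := by
  unfold captureTime
  refine le_iInf fun u => le_iInf fun hu => ?_
  by_contra hc
  have h1 : u < t := by
    rw [not_le] at hc
    exact_mod_cast hc
  exact h ⟨u, h1.le, hu⟩

omit [MetricSpace Q] in
theorem tail_lower {Ω : Type} [MeasurableSpace Ω] (P : Measure Ω) {S : ℝ≥0 → Q}
    {H : Ω → ℝ≥0 → Q} (hm : ∀ t : ℝ≥0, MeasurableSet (caught S H t)) (Λ : ℝ) :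
    ∫⁻ t in Ioc 0 Λ, P (caught S H (Real.toNNReal t))ᶜ ≤
      ∫⁻ ω, captureTime S (H ω) ∂P := by
  have hT := captureTime_meas hm
  set T : Ω → ℝ≥0∞ := fun ω => captureTime S (H ω) with hTd
  set f : Ω → ℝ := fun ω => (min (T ω) (ENNReal.ofReal Λ)).toReal with hf
  have hfm : Measurable f := (hT.min measurable_const).ennreal_toReal
  have hf0 : ∀ ω, 0 ≤ f ω := fun ω => ENNReal.toReal_nonneg
  have hfin : ∀ ω, min (T ω) (ENNReal.ofReal Λ) ≠ ⊤ := fun ω =>
    ne_top_of_le_ne_top ENNReal.ofReal_ne_top (min_le_right _ _)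
  calc ∫⁻ t in Ioc 0 Λ, P (caught S H (Real.toNNReal t))ᶜ
      ≤ ∫⁻ t in Ioc 0 Λ, P {ω | t ≤ f ω} := by
        refine setLIntegral_mono' measurableSet_Ioc fun t ht => measure_mono ?_
        intro ω hω
        have h1 := le_captureTime hω
        show t ≤ f ω
        simp only [hf]
        have h2 : ENNReal.ofReal t ≤ min (T ω) (ENNReal.ofReal Λ) :=
          le_min h1 (ENNReal.ofReal_le_ofReal ht.2)
        have h3 := ENNReal.toReal_mono (hfin ω) h2
        rwa [ENNReal.toReal_ofReal ht.1.le] at h3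
    _ ≤ ∫⁻ t in Ioi 0, P {ω | t ≤ f ω} :=
        lintegral_mono_set (fun t ht => ht.1)
    _ = ∫⁻ ω, ENNReal.ofReal (f ω) ∂P :=
        (lintegral_eq_lintegral_meas_le P (Filter.Eventually.of_forall hf0)
          hfm.aemeasurable).symm
    _ ≤ ∫⁻ ω, T ω ∂P := by
        refine lintegral_mono fun ω => ?_
        simp only [hf]
        rw [ENNReal.ofReal_toReal (hfin ω)]
        exact min_le_left _ _

theorem mix_tail {w : ℝ≥0} {O : Q} {ι Ω0 : Type} [Fintype ι] [MeasurableSpace Ω0]
    {q : ι → ℝ} (hq : ∀ i, 0 ≤ q i) (hq1 : ∑ i, q i = 1) (P : ι → Measure Ω0)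
    (hP : ∀ i, IsProbabilityMeasure (P i)) (H : ι → Ω0 → ℝ≥0 → Q)
    (hlip : ∀ i ω, LipschitzWith w (H i ω))
    (hmeas : ∀ i t, @Measurable Ω0 Q _ (borel Q) fun ω => H i ω t)
    (hmT : ∀ i, ∀ S : ℝ≥0 → Q, LipschitzWith 1 S → ∀ t : ℝ≥0, MeasurableSet (caught S (H i) t))
    {Λ : ℝ} (hΛ : 0 ≤ Λ) {g : ℝ → ℝ} (hg : Continuous g)
    (hv : ∀ S : ℝ≥0 → Q, S 0 = O → LipschitzWith 1 S → ∀ t : ℝ≥0, (t : ℝ) ≤ Λ →
      ∑ i, q i * (P i (caught S (H i) t)).toReal ≤ 1 - g t) :
    HiderGuarantees w O (ENNReal.ofReal (∫ t in (0 : ℝ)..Λ, g t)) := by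
  classical
  refine mix_guarantee hq hq1 P hP H hlip hmeas ?_
  intro S hS0 hS
  have hmono : ∀ i, Antitone fun t : ℝ => P i (caught S (H i) (Real.toNNReal t))ᶜ := by
    intro i s t hst
    refine measure_mono (compl_subset_compl.2 (caught_mono _ _ ?_))
    exact Real.toNNReal_le_toNNReal hst
  calc ENNReal.ofReal (∫ t in (0 : ℝ)..Λ, g t)
      ≤ ∫⁻ t in Ioc 0 Λ, ENNReal.ofReal (g t) := by
        rw [intervalIntegral.integral_of_le hΛ]
        have hi : IntegrableOn g (Ioc 0 Λ) := by
          have h1 : IntervalIntegrable g volume 0 Λ := hg.intervalIntegrable 0 Λ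
          exact h1.1
        have hi' : IntegrableOn (fun t => max (g t) 0) (Ioc 0 Λ) := by
          have h1 : IntervalIntegrable (fun t => max (g t) 0) volume 0 Λ :=
            (hg.max continuous_const).intervalIntegrable 0 Λ
          exact h1.1
        calc ENNReal.ofReal (∫ t in Ioc 0 Λ, g t)
            ≤ ENNReal.ofReal (∫ t in Ioc 0 Λ, max (g t) 0) :=
              ENNReal.ofReal_le_ofReal (integral_mono hi hi' fun t => le_max_left _ _)
          _ = ∫⁻ t in Ioc 0 Λ, ENNReal.ofReal (max (g t) 0) :=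
              ofReal_integral_eq_lintegral_ofReal hi'
                (Filter.Eventually.of_forall fun t => le_max_right _ _)
          _ = ∫⁻ t in Ioc 0 Λ, ENNReal.ofReal (g t) := by
              refine lintegral_congr fun t => ?_
              rcases le_total (g t) 0 with h | h
              · rw [max_eq_right h, ENNReal.ofReal_of_nonpos h, ENNReal.ofReal_zero]
              · rw [max_eq_left h]
    _ ≤ ∫⁻ t in Ioc 0 Λ, ∑ i, ENNReal.ofReal (q i) *
          P i (caught S (H i) (Real.toNNReal t))ᶜ := by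
        refine setLIntegral_mono' measurableSet_Ioc fun t ht => ?_
        have h1 := hv S hS0 hS (Real.toNNReal t) (by rw [Real.coe_toNNReal t ht.1.le]; exact ht.2)
        rw [Real.coe_toNNReal t ht.1.le] at h1
        have h2 : ∀ i, ENNReal.ofReal (q i) * P i (caught S (H i) (Real.toNNReal t))ᶜ =
            ENNReal.ofReal (q i * (1 - (P i (caught S (H i) (Real.toNNReal t))).toReal)) := by
          intro i
          have := hP i
          have h3 : P i (caught S (H i) (Real.toNNReal t)) ≤ 1 := prob_le_one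
          have h4 : (P i (caught S (H i) (Real.toNNReal t))).toReal ≤ 1 := by
            have := ENNReal.toReal_mono ENNReal.one_ne_top h3
            simpa using this
          rw [ENNReal.ofReal_mul (hq i), prob_compl_eq_one_sub (hmT i S hS _),
            ENNReal.ofReal_sub _ ENNReal.toReal_nonneg, ENNReal.ofReal_one,
            ENNReal.ofReal_toReal (ne_top_of_le_ne_top ENNReal.one_ne_top h3)]
        rw [Finset.sum_congr rfl fun i _ => h2 i, ← ENNReal.ofReal_sum_of_nonneg]
        · refine ENNReal.ofReal_le_ofReal ?_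
          have h3 : ∑ i, q i * (1 - (P i (caught S (H i) (Real.toNNReal t))).toReal) =
              1 - ∑ i, q i * (P i (caught S (H i) (Real.toNNReal t))).toReal := by
            have h4 : ∀ i, q i * (1 - (P i (caught S (H i) (Real.toNNReal t))).toReal) =
                q i - q i * (P i (caught S (H i) (Real.toNNReal t))).toReal := fun i => by ring
            rw [Finset.sum_congr rfl fun i _ => h4 i, Finset.sum_sub_distrib, hq1]
          rw [h3]
          linarith
        · intro i _
          have := hP i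
          have h3 : P i (caught S (H i) (Real.toNNReal t)) ≤ 1 := prob_le_one
          have h4 : (P i (caught S (H i) (Real.toNNReal t))).toReal ≤ 1 := by
            have := ENNReal.toReal_mono ENNReal.one_ne_top h3
            simpa using this
          exact mul_nonneg (hq i) (by linarith)
    _ = ∑ i, ENNReal.ofReal (q i) * ∫⁻ t in Ioc 0 Λ,
          P i (caught S (H i) (Real.toNNReal t))ᶜ := by
        rw [lintegral_finsetSum _ fun i _ => ((hmono i).measurable.const_mul _)]
        refine Finset.sum_congr rfl fun i _ => ?_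
        rw [lintegral_const_mul _ (hmono i).measurable]
    _ ≤ ∑ i, ENNReal.ofReal (q i) * ∫⁻ ω, captureTime S (H i ω) ∂(P i) := by
        refine Finset.sum_le_sum fun i _ => ?_
        gcongr
        exact tail_lower (P i) (hmT i S hS) Λ

end UB
end MPacf82c
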