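import Pool.Agent.Lib.MP_acf82c_lc.U.Meet
import Pool.Agent.Lib.MP_acf82c_lc.U.Tail

/-!
# Universal bound: the hider strategy belonging to one pair of points

For a geodesic `r` from `x` to `y` of length `l`: either the hider is stationary, uniformly
distributed outside the geodesic (`Pst`), or he waits at `x` until the random time `θ`, uniform
in `[-l, Λ]`, runs to `y` along the geodesic and stays there (`Pmv`). `fw_bound` bounds the set
of `θ` for which he is caught up to the time `t`.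
-/

namespace MPacf82c
namespace UB

open Set MeasureTheory
open scoped NNReal ENNReal

variable {Q : Type} [MetricSpace Q]

theorem IsGeo.rev {r : ℝ → Q} {x y : Q} (hr : IsGeo r x y) :
    IsGeo (fun s => r (dist x y - s)) y x := by
  have hd : dist y x = dist x y := dist_comm y x
  refine ⟨?_, ?_, ?_, ?_⟩
  · refine LipschitzWith.of_dist_le_mul fun a b => ?_
    have h1 := hr.lip.dist_le_mul (dist x y - a) (dist x y - b)
    rw [Real.dist_eq, sub_sub_sub_cancel_left, abs_sub_comm, ← Real.dist_eq] at h1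
    exact h1
  · intro s hs
    exact hr.right _ (by linarith)
  · intro s hs
    rw [hd] at hs
    exact hr.left _ (by linarith)
  · intro s h0 h1
    rw [hd] at h1
    have e1 := hr.pos (dist x y - s) (by linarith) (by linarith)
    have e2 : dist y (r (dist x y - s)) ≤ s := by
      have h2 := hr.lip.dist_le_mul (dist x y) (dist x y - s)
      rw [hr.right _ le_rfl, NNReal.coe_one, one_mul, Real.dist_eq, sub_sub_cancel,
        abs_of_nonneg h0] at h2
      exact h2
    have e3 := dist_triangle x (r (dist x y - s)) y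
    rw [dist_comm (r (dist x y - s)) y] at e3
    linarith

/-- Gains and losses at the two ends of the trip. -/
noncomputable def ends (Λ : ℝ) (Vx Vy : Prop) [Decidable Vx] [Decidable Vy] (l αx αy βy : ℝ) :
    ℝ :=
  (if Vx then Λ - αx else 0) + (if Vy then βy else 0) -
    (if Vx ∧ Vy then max (αy - αx - l) 0 else 0)

/-- The starting times for which the traveller is caught. -/
def caughtθ (S r : ℝ → Q) (t : ℝ) : Set ℝ := {θ | ∃ u ∈ Icc 0 t, S u = r (u - θ)}

theorem toReal_union_le {A B : Set ℝ} (hA : volume A ≠ ⊤) (hB : volume B ≠ ⊤) :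
    (volume (A ∪ B)).toReal ≤ (volume A).toReal + (volume B).toReal := by
  rw [← ENNReal.toReal_add hA hB]
  exact ENNReal.toReal_mono (ENNReal.add_ne_top.2 ⟨hA, hB⟩) (measure_union_le A B)

theorem vol_Icc_toReal {a b : ℝ} (h : a ≤ b) : (volume (Icc a b)).toReal = b - a := by
  rw [Real.volume_Icc, ENNReal.toReal_ofReal (by linarith)]

theorem vol_Icc_ne_top (a b : ℝ) : volume (Icc a b) ≠ ⊤ := by
  rw [Real.volume_Icc]
  exact ENNReal.ofReal_ne_top

theorem fw_bound {x y : Q} {r : ℝ → Q} (hr : IsGeo r x y) {S : ℝ → Q} {Λ t : ℝ}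
    (htΛ : t ≤ Λ) {Vx Vy : Prop} [Decidable Vx] [Decidable Vy] {αx βx αy βy : ℝ}
    (hx : ∀ u ∈ Icc 0 t, S u = x → Vx ∧ αx ≤ u) (hy : ∀ u ∈ Icc 0 t, S u = y → Vy ∧ u ≤ βy)
    (hVx : Vx → 0 ≤ αx ∧ αx ≤ βx ∧ βx ≤ t) (hVy : Vy → 0 ≤ αy ∧ αy ≤ βy ∧ βy ≤ t) :
    (volume (Icc (-dist x y) Λ ∩ caughtθ S r t)).toReal ≤
      (volume (badF S r t (dist x y))).toReal + ends Λ Vx Vy (dist x y) αx αy βy := by
  set l := dist x y with hl
  have hl0 : 0 ≤ l := dist_nonneg
  have hsub : Icc (-l) Λ ∩ caughtθ S r t ⊆ badF S r t l ∪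
      ((if Vx then Icc αx Λ else ∅) ∪ (if Vy then Icc (-l) (βy - l) else ∅)) := by
    rintro θ ⟨⟨h1, h2⟩, u, hu, h3⟩
    by_cases h4 : u < θ
    · right; left
      have h5 : S u = x := by rw [h3, hr.left _ (by linarith)]
      obtain ⟨h6, h7⟩ := hx u hu h5
      rw [if_pos h6]
      exact ⟨by linarith, h2⟩
    · by_cases h5 : θ + l < u
      · right; right
        have h6 : S u = y := by rw [h3, hr.right _ (by linarith)]
        obtain ⟨h7, h8⟩ := hy u hu h6
        rw [if_pos h7]
        exact ⟨h1, by linarith⟩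
      · left
        exact ⟨u, hu, by linarith, by linarith, h3⟩
  have hXY : volume ((if Vx then Icc αx Λ else ∅) ∪ (if Vy then Icc (-l) (βy - l) else ∅) :
      Set ℝ) ≠ ⊤ ∧
      (volume ((if Vx then Icc αx Λ else ∅) ∪ (if Vy then Icc (-l) (βy - l) else ∅) :
      Set ℝ)).toReal ≤ ends Λ Vx Vy l αx αy βy := by
    unfold ends
    by_cases h1 : Vx
    · obtain ⟨a1, a2, a3⟩ := hVx h1
      by_cases h2 : Vy
      · obtain ⟨b1, b2, b3⟩ := hVy h2
        rw [if_pos h1, if_pos h2, if_pos h1, if_pos h2, if_pos ⟨h1, h2⟩]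
        refine ⟨measure_union_ne_top (vol_Icc_ne_top _ _) (vol_Icc_ne_top _ _), ?_⟩
        rcases le_total αx (βy - l) with h3 | h3
        · have h4 : Icc αx Λ ∪ Icc (-l) (βy - l) ⊆ Icc (-l) Λ := by
            rintro θ (⟨c1, c2⟩ | ⟨c1, c2⟩)
            · exact ⟨by linarith, c2⟩
            · exact ⟨c1, by linarith⟩
          have h5 := ENNReal.toReal_mono (vol_Icc_ne_top _ _) (measure_mono (μ := volume) h4)
          rw [vol_Icc_toReal (by linarith)] at h5
          have h6 : max (αy - αx - l) 0 ≤ βy - αx - l := max_le (by linarith) (by linarith)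
          linarith
        · have h4 := toReal_union_le (vol_Icc_ne_top αx Λ) (vol_Icc_ne_top (-l) (βy - l))
          rw [vol_Icc_toReal (by linarith), vol_Icc_toReal (by linarith)] at h4
          have h6 : max (αy - αx - l) 0 = 0 := max_eq_right (by linarith)
          rw [h6]
          linarith
      · rw [if_pos h1, if_neg h2, if_pos h1, if_neg h2, if_neg (fun h => h2 h.2), union_empty]
        refine ⟨vol_Icc_ne_top _ _, ?_⟩
        rw [vol_Icc_toReal (by linarith)]
        linarith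
    · by_cases h2 : Vy
      · obtain ⟨b1, b2, b3⟩ := hVy h2
        rw [if_neg h1, if_pos h2, if_neg h1, if_pos h2, if_neg (fun h => h1 h.1), empty_union]
        refine ⟨vol_Icc_ne_top _ _, ?_⟩
        rw [vol_Icc_toReal (by linarith)]
        linarith
      · rw [if_neg h1, if_neg h2, if_neg h1, if_neg h2, if_neg (fun h => h1 h.1), union_empty]
        simp
  have h1 := ENNReal.toReal_mono (measure_union_ne_top (badF_ne_top S r t l) hXY.1)
    (measure_mono (μ := volume) hsub)
  have h2 := toReal_union_le (badF_ne_top S r t l) hXY.1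
  linarith [hXY.2]

/-- The two directions of travel together. -/
theorem fw_bw {x y : Q} {r : ℝ → Q} (hr : IsGeo r x y) {S : ℝ → Q} (hS : LipschitzWith 1 S)
    (t : ℝ) : (volume (badF S r t (dist x y))).toReal +
      (volume (badF S (fun s => r (dist x y - s)) t (dist y x))).toReal ≤
      2 * (volume (onSet S r t (dist x y))).toReal := by
  have h := meet_two hr hS t
  have h1 : badF S (fun s => r (dist x y - s)) t (dist y x) = badB S r t (dist x y) := by
    rw [dist_comm y x]
    rfl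
  rw [h1]
  exact h

section meas

variable [MeasurableSpace Q] [BorelSpace Q]

/-- The law of the stationary hider (outside the set `R`). -/
noncomputable def Pst (R : Set Q) : Measure (Q × ℝ) :=
  (ProbabilityTheory.cond (μH[1]) Rᶜ).prod (Measure.dirac 0)

/-- The law of the starting time. -/
noncomputable def Pmv (z : Q) (l Λ : ℝ) : Measure (Q × ℝ) :=
  (Measure.dirac z).prod (ProbabilityTheory.cond volume (Icc (-l) Λ))

/-- The stationary hider. -/
def Hst (ω : Q × ℝ) (_ : ℝ≥0) : Q := ω.1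

/-- The travelling hider. -/
def Hmv (r : ℝ → Q) (ω : Q × ℝ) (t : ℝ≥0) : Q := r (t - ω.2)

/-- The extension of a searcher path to the real line. -/
noncomputable def ext (S : ℝ≥0 → Q) (s : ℝ) : Q := S (Real.toNNReal s)

omit [MeasurableSpace Q] [BorelSpace Q] in
theorem ext_lip {S : ℝ≥0 → Q} (hS : LipschitzWith 1 S) : LipschitzWith 1 (ext S) := by
  have h2 : LipschitzWith 1 Real.toNNReal := lipschitzWith_posPart
  have h3 := hS.comp h2
  rwa [one_mul] at h3

omit [MeasurableSpace Q] [BorelSpace Q] in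
theorem caught_st (S : ℝ≥0 → Q) (t : ℝ≥0) :
    caught S (Hst (Q := Q)) t = (ext S '' Icc 0 (t : ℝ)) ×ˢ univ := by
  ext ⟨z, θ⟩
  simp only [caught, Hst, mem_ofPred_eq, mem_prod, mem_univ, and_true, mem_image, ext]
  constructor
  · rintro ⟨u, hu, h1⟩
    exact ⟨u, ⟨u.coe_nonneg, by exact_mod_cast hu⟩, by rw [Real.toNNReal_coe, h1]⟩
  · rintro ⟨u, ⟨h0, h1⟩, h2⟩
    exact ⟨Real.toNNReal u, Real.toNNReal_le_iff_le_coe.2 h1, h2⟩

omit [MeasurableSpace Q] [BorelSpace Q] in
theorem caught_mv (S : ℝ≥0 → Q) (r : ℝ → Q) (t : ℝ≥0) :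
    caught S (Hmv r) t = univ ×ˢ caughtθ (ext S) r t := by
  ext ⟨z, θ⟩
  simp only [caught, Hmv, mem_ofPred_eq, mem_prod, mem_univ, true_and, caughtθ, ext]
  constructor
  · rintro ⟨u, hu, h1⟩
    exact ⟨u, ⟨u.coe_nonneg, by exact_mod_cast hu⟩, by rw [Real.toNNReal_coe, h1]⟩
  · rintro ⟨u, ⟨h0, h1⟩, h2⟩
    refine ⟨Real.toNNReal u, Real.toNNReal_le_iff_le_coe.2 h1, ?_⟩
    rw [Real.coe_toNNReal u h0]
    exact h2

theorem image_meas {S : ℝ → Q} (hS : Continuous S) (t : ℝ) : MeasurableSet (S '' Icc 0 t) :=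
  (isCompact_Icc.image hS).isClosed.measurableSet

omit [MeasurableSpace Q] [BorelSpace Q] in
theorem caughtθ_closed {S r : ℝ → Q} (hS : Continuous S) (hr : Continuous r) (t : ℝ) :
    IsClosed (caughtθ S r t) := by
  have : CompactSpace (Icc (0 : ℝ) t) := isCompact_iff_compactSpace.1 isCompact_Icc
  have h1 : IsClosed {p : Icc (0 : ℝ) t × ℝ | S p.1 = r (p.1 - p.2)} := by
    refine isClosed_eq (hS.comp (by fun_prop)) (hr.comp (by fun_prop))
  have h2 := isClosedMap_snd_of_compactSpace (X := Icc (0 : ℝ) t) (Y := ℝ) _ h1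
  have h3 : caughtθ S r t = Prod.snd '' {p : Icc (0 : ℝ) t × ℝ | S p.1 = r (p.1 - p.2)} := by
    ext θ
    constructor
    · rintro ⟨u, hu, h⟩
      exact ⟨(⟨u, hu⟩, θ), h, rfl⟩
    · rintro ⟨⟨⟨u, hu⟩, θ'⟩, h, rfl⟩
      exact ⟨u, hu, h⟩
  rw [h3]
  exact h2

theorem meas_st {S : ℝ≥0 → Q} (hS : LipschitzWith 1 S) (t : ℝ≥0) :
    MeasurableSet (caught S (Hst (Q := Q)) t) := by
  rw [caught_st]
  exact (image_meas (ext_lip hS).continuous _).prod MeasurableSet.univ

theorem meas_mv {S : ℝ≥0 → Q} (hS : LipschitzWith 1 S) {r : ℝ → Q} (hr : LipschitzWith 1 r)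
    (t : ℝ≥0) : MeasurableSet (caught S (Hmv r) t) := by
  rw [caught_mv]
  exact MeasurableSet.univ.prod (caughtθ_closed (ext_lip hS).continuous hr.continuous _).measurableSet

/-- The stationary hider outside a geodesic. -/
theorem st_bound (N : Network Q) {x y : Q} {r : ℝ → Q} (hr : IsGeo r x y)
    (hlt : dist x y < N.length) {S : ℝ≥0 → Q} (hS : LipschitzWith 1 S) (t : ℝ≥0) :
    IsProbabilityMeasure (Pst (r '' Icc 0 (dist x y))) ∧
    (N.length - dist x y) *
      (Pst (r '' Icc 0 (dist x y)) (caught S (Hst (Q := Q)) t)).toReal ≤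
      t - (volume (onSet (ext S) r t (dist x y))).toReal := by
  set R : Set Q := r '' Icc 0 (dist x y) with hR
  have hRm : MeasurableSet R := image_meas hr.lip.continuous _
  have htot := haus_total N
  have hgeo : μH[1] R = ENNReal.ofReal (dist x y) := haus_geo hr
  have hl0 : 0 ≤ dist x y := dist_nonneg
  have hc : μH[1] Rᶜ = ENNReal.ofReal (N.length - dist x y) := by
    rw [measure_compl hRm (by rw [hgeo]; exact ENNReal.ofReal_ne_top), htot, hgeo,
      ENNReal.ofReal_sub _ hl0]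
  have hc0 : μH[1] Rᶜ ≠ 0 := by
    rw [hc]
    simpa using hlt
  have hct : μH[1] Rᶜ ≠ ⊤ := by
    rw [hc]
    exact ENNReal.ofReal_ne_top
  have hprob : IsProbabilityMeasure (ProbabilityTheory.cond (μH[1]) Rᶜ) :=
    ProbabilityTheory.cond_isProbabilityMeasure_of_finite hc0 hct
  refine ⟨by unfold Pst; infer_instance, ?_⟩
  have hS' := ext_lip hS
  rw [caught_st]
  unfold Pst
  rw [Measure.prod_prod, measure_univ, mul_one, ProbabilityTheory.cond_apply hRm.compl, hc,
    ENNReal.toReal_mul, ENNReal.toReal_inv, ENNReal.toReal_ofReal (by linarith), ← mul_assoc,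
    mul_inv_cancel₀ (by linarith), one_mul]
  have h1 : Rᶜ ∩ (ext S '' Icc 0 (t : ℝ)) ⊆
      ext S '' (Icc 0 (t : ℝ) \ onSet (ext S) r t (dist x y)) := by
    rintro z ⟨h2, u, hu, h3⟩
    refine ⟨u, ⟨hu, ?_⟩, h3⟩
    rintro ⟨-, h4⟩
    rw [h3] at h4
    exact h2 h4
  have h2 : μH[1] (Rᶜ ∩ (ext S '' Icc 0 (t : ℝ))) ≤
      volume (Icc 0 (t : ℝ) \ onSet (ext S) r t (dist x y)) :=
    (measure_mono h1).trans (haus_path hS' _)
  have h3 : volume (Icc 0 (t : ℝ) \ onSet (ext S) r t (dist x y)) =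
      volume (Icc 0 (t : ℝ)) - volume (onSet (ext S) r t (dist x y)) :=
    measure_sdiff (onSet_subset _ _ _ _)
      (onSet_meas hS'.continuous hr.lip.continuous _ _).nullMeasurableSet (onSet_ne_top _ _ _ _)
  have h4 : (volume (Icc 0 (t : ℝ) \ onSet (ext S) r t (dist x y))).toReal =
      t - (volume (onSet (ext S) r t (dist x y))).toReal := by
    rw [h3, ENNReal.toReal_sub_of_le (measure_mono (onSet_subset _ _ _ _)) (vol_Icc_ne_top _ _),
      vol_Icc_toReal t.coe_nonneg, sub_zero]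
  rw [← h4]
  refine ENNReal.toReal_mono ?_ h2
  exact ne_top_of_le_ne_top (vol_Icc_ne_top 0 t) (measure_mono sdiff_subset)

/-- The probability that the travelling hider is caught. -/
theorem mv_bound (z : Q) {l Λ : ℝ} (hl : 0 ≤ l) (hΛ : 0 < Λ) {r : ℝ → Q} (S : ℝ≥0 → Q)
    (t : ℝ≥0) :
    IsProbabilityMeasure (Pmv z l Λ) ∧
    (Λ + l) * (Pmv z l Λ (caught S (Hmv r) t)).toReal =
      (volume (Icc (-l) Λ ∩ caughtθ (ext S) r t)).toReal := by
  have hc : volume (Icc (-l) Λ) = ENNReal.ofReal (Λ + l) := by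
    rw [Real.volume_Icc, sub_neg_eq_add]
  have hc0 : volume (Icc (-l) Λ) ≠ 0 := by
    rw [hc]
    have : 0 < Λ + l := by linarith
    simpa using this
  have hprob : IsProbabilityMeasure (ProbabilityTheory.cond (volume : Measure ℝ) (Icc (-l) Λ)) :=
    ProbabilityTheory.cond_isProbabilityMeasure_of_finite hc0 (vol_Icc_ne_top _ _)
  refine ⟨by unfold Pmv; infer_instance, ?_⟩
  rw [caught_mv]
  unfold Pmv
  rw [Measure.prod_prod, measure_univ, one_mul, ProbabilityTheory.cond_apply measurableSet_Icc,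
    hc, ENNReal.toReal_mul, ENNReal.toReal_inv, ENNReal.toReal_ofReal (by linarith),
    ← mul_assoc, mul_inv_cancel₀ (by linarith), one_mul]

end meas

end UB
end MPacf82c
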