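import Pool.Agent.Lib.MP_acf82c_lc.U.Pair
import Pool.Agent.Lib.MP_acf82c_lc.U.Count

/-!
# Universal bound: the sum of the gains at the ends over all pairs of samples
-/

namespace MPacf82c
namespace UB

open Set MeasureTheory
open scoped NNReal ENNReal

variable {Q : Type} [MetricSpace Q]

omit [MetricSpace Q] in
/-- First and last visit of a point during `[0, t]`. -/
theorem visits [TopologicalSpace Q] [T1Space Q] {S : ℝ → Q} (hS : Continuous S) (t : ℝ) (z : Q)
    (h : ∃ u ∈ Icc 0 t, S u = z) :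
    ∃ a b, a ∈ Icc 0 t ∧ b ∈ Icc 0 t ∧ S a = z ∧ S b = z ∧
      ∀ u ∈ Icc 0 t, S u = z → a ≤ u ∧ u ≤ b := by
  have hK : IsCompact (Icc 0 t ∩ S ⁻¹' {z}) :=
    isCompact_Icc.inter_right (isClosed_singleton.preimage hS)
  have hne : (Icc 0 t ∩ S ⁻¹' {z}).Nonempty := by
    obtain ⟨u, hu, h1⟩ := h
    exact ⟨u, hu, h1⟩
  obtain ⟨a, ha, ha'⟩ := hK.exists_isLeast hne
  obtain ⟨b, hb, hb'⟩ := hK.exists_isGreatest hne
  exact ⟨a, b, ha.1, hb.1, ha.2, hb.2, fun u hu h1 => ⟨ha' ⟨hu, h1⟩, hb' ⟨hu, h1⟩⟩⟩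

theorem sum_ends {n : ℕ} {x : Fin n → Q} {h D Λ t : ℝ} (hh : 0 < h) (hD0 : 0 ≤ D) (ht0 : 0 ≤ t)
    (hsep : ∀ i j, i ≠ j → h ≤ dist (x i) (x j)) (hD : ∀ i j, dist (x i) (x j) ≤ D)
    {S : ℝ → Q} (hS : LipschitzWith 1 S) (V : Fin n → Prop) [DecidablePred V]
    (α β : Fin n → ℝ)
    (hV : ∀ i, V i → 0 ≤ α i ∧ α i ≤ β i ∧ β i ≤ t ∧ S (α i) = x i ∧ S (β i) = x i) :
    ∃ N : ℕ, (N : ℝ) * h ≤ t + h ∧
      ∑ j, ∑ k, ends Λ (V j) (V k) (dist (x j) (x k)) (α j) (α k) (β k) ≤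
        n * (N * (Λ + t) - h * (N * (N - 1))) -
          (max (((N : ℝ) - 1) * h - D) 0) ^ 3 / (6 * h ^ 2) := by
  classical
  set A : Finset (Fin n) := Finset.univ.filter V with hA
  have hmem : ∀ i, i ∈ A ↔ V i := fun i => by simp [hA]
  have hdist : ∀ a b : ℝ, dist (S a) (S b) ≤ |a - b| := by
    intro a b
    have := hS.dist_le_mul a b
    rwa [NNReal.coe_one, one_mul, Real.dist_eq] at this
  have sα : Sep A α h := by
    intro i hi j hj hij
    obtain ⟨-, -, -, h1, -⟩ := hV i ((hmem i).1 hi)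
    obtain ⟨-, -, -, h2, -⟩ := hV j ((hmem j).1 hj)
    have := hdist (α i) (α j)
    rw [h1, h2] at this
    exact (hsep i j hij).trans this
  have sβ : Sep A (fun i => t - β i) h := by
    intro i hi j hj hij
    obtain ⟨-, -, -, -, h1⟩ := hV i ((hmem i).1 hi)
    obtain ⟨-, -, -, -, h2⟩ := hV j ((hmem j).1 hj)
    have := hdist (β i) (β j)
    rw [h1, h2] at this
    simp only
    rw [sub_sub_sub_cancel_left, abs_sub_comm]
    exact (hsep i j hij).trans this
  have hα0 : ∀ i ∈ A, 0 ≤ α i := fun i hi => (hV i ((hmem i).1 hi)).1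
  have hαt : ∀ i ∈ A, α i + h ≤ t + h := fun i hi => by
    obtain ⟨-, h1, h2, -, -⟩ := hV i ((hmem i).1 hi)
    linarith
  have hβ0 : ∀ i ∈ A, 0 ≤ t - β i := fun i hi => by
    obtain ⟨-, -, h2, -, -⟩ := hV i ((hmem i).1 hi)
    linarith
  have c1 := sep_max hh.le A α sα hα0 (t + h) (by linarith) hαt
  have c2 := sep_sum hh.le A α sα hα0
  have c3 := sep_sum hh.le A (fun i => t - β i) sβ hβ0
  have c4 := sep_pos_two hh hD0 A α sα
  refine ⟨A.card, c1, ?_⟩
  -- the three parts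
  have e1 : ∑ j : Fin n, ∑ k : Fin n, ends Λ (V j) (V k) (dist (x j) (x k)) (α j) (α k) (β k) =
      n * ∑ i ∈ A, (Λ - α i) + n * ∑ i ∈ A, β i -
        ∑ j ∈ A, ∑ k ∈ A, max (α k - α j - dist (x j) (x k)) 0 := by
    unfold ends
    simp only [Finset.sum_sub_distrib, Finset.sum_add_distrib]
    congr 1
    · congr 1
      · rw [Finset.sum_comm]
        simp only [Finset.sum_const, Finset.card_univ, Fintype.card_fin, nsmul_eq_mul]
        congr 1
        rw [← Finset.sum_filter, Finset.sum_sub_distrib, Finset.sum_const, nsmul_eq_mul]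
      · simp only [Finset.sum_const, Finset.card_univ, Fintype.card_fin, nsmul_eq_mul]
        congr 1
        rw [hA, Finset.sum_filter]
    · rw [hA, Finset.sum_filter]
      refine Finset.sum_congr rfl fun j _ => ?_
      by_cases hj : V j
      · rw [if_pos hj, Finset.sum_filter]
        refine Finset.sum_congr rfl fun k _ => ?_
        by_cases hk : V k
        · rw [if_pos hk, if_pos ⟨hj, hk⟩]
        · rw [if_neg hk, if_neg (fun h => hk h.2)]
      · rw [if_neg hj]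
        refine Finset.sum_eq_zero fun k _ => ?_
        rw [if_neg (fun h => hj h.1)]
  have e2 : ∑ j ∈ A, ∑ k ∈ A, max (α k - α j - D) 0 ≤
      ∑ j ∈ A, ∑ k ∈ A, max (α k - α j - dist (x j) (x k)) 0 := by
    refine Finset.sum_le_sum fun j _ => Finset.sum_le_sum fun k _ => ?_
    exact max_le_max (by linarith [hD j k]) le_rfl
  have e3 : ∑ i ∈ A, (Λ - α i) = A.card * Λ - ∑ i ∈ A, α i := by
    rw [Finset.sum_sub_distrib, Finset.sum_const, nsmul_eq_mul]
  have e4 : ∑ i ∈ A, (t - β i) = A.card * t - ∑ i ∈ A, β i := by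
    rw [Finset.sum_sub_distrib, Finset.sum_const, nsmul_eq_mul]
  rw [e4] at c3
  rw [e1, e3]
  have hn0 : (0 : ℝ) ≤ n := Nat.cast_nonneg n
  have e5 : (n : ℝ) * (A.card * Λ - ∑ i ∈ A, α i) + n * ∑ i ∈ A, β i ≤
      n * (A.card * (Λ + t) - h * (A.card * (A.card - 1))) := by
    rw [← mul_add]
    refine mul_le_mul_of_nonneg_left ?_ hn0
    linarith
  linarith

end UB
end MPacf82c
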