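import Pool.Agent.Lib.MP_acf82c_lc.U.Main

/-!
# Universal bound: final form
-/

namespace MPacf82c
namespace UB

open Set MeasureTheory
open scoped NNReal ENNReal

variable {Q : Type} [MetricSpace Q]

theorem HiderGuarantees_mono {w : ℝ≥0} {O : Q} {v v' : ℝ≥0∞} (h : HiderGuarantees w O v)
    (hv : v' ≤ v) : HiderGuarantees w O v' := by
  obtain ⟨Ω, m, P, H, h1, h2, h3, h4⟩ := h
  exact ⟨Ω, m, P, H, h1, h2, h3, fun S hS0 hS => hv.trans (h4 S hS0 hS)⟩

theorem small_diam (N : Network Q) (O : Q) {w : ℝ≥0} (hw : 1 ≤ w) {κ c : ℝ} (hκ0 : 0 ≤ κ)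
    (hκ1 : κ < 1) (hD : ∀ x y : Q, dist x y ≤ κ * N.length)
    (hc : c < 1 / 2 + (1 - κ) ^ 4 / 48 - (1 - κ) ^ 5 / 160) :
    HiderGuarantees w O (ENNReal.ofReal (c * N.length)) := by
  classical
  have hΛ := length_pos N O
  obtain ⟨e0, -, -, -⟩ := N.cover O
  obtain ⟨g, hg⟩ : ∃ g, g = (1 / 2 + (1 - κ) ^ 4 / 48 - (1 - κ) ^ 5 / 160 - c) := ⟨_, rfl⟩
  have hg0 : 0 < g := by linarith
  obtain ⟨ε, hε⟩ : ∃ ε, ε = min (g / 8) (1 / 2) := ⟨_, rfl⟩
  have hε0 : 0 < ε := by
    rw [hε]
    exact lt_min (by linarith) (by norm_num)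
  have hε1 : ε ≤ 1 / 2 := by rw [hε]; exact min_le_right _ _
  have hεg : ε ≤ g / 8 := by rw [hε]; exact min_le_left _ _
  obtain ⟨e1, -, he1⟩ := Finset.exists_min_image (Finset.univ : Finset N.Arc) N.len
    ⟨e0, Finset.mem_univ _⟩
  have hcard : (0 : ℝ) < Fintype.card N.Arc := by
    exact_mod_cast Fintype.card_pos_iff.2 ⟨e0⟩
  obtain ⟨h, hh⟩ : ∃ h, h = min (N.len e1) (min (ε * N.length)
    (ε * N.length / Fintype.card N.Arc)) := ⟨_, rfl⟩
  have hh0 : 0 < h := by
    rw [hh]
    exact lt_min (N.len_pos e1) (lt_min (by positivity) (by positivity))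
  have h1 : ∀ e, h ≤ N.len e := fun e => by
    rw [hh]
    exact (min_le_left _ _).trans (he1 e (Finset.mem_univ e))
  have h2 : h ≤ ε * N.length := by
    rw [hh]
    exact (min_le_right _ _).trans (min_le_left _ _)
  have h3 : Fintype.card N.Arc * h ≤ ε * N.length := by
    have h4 : h ≤ ε * N.length / Fintype.card N.Arc := by
      rw [hh]
      exact (min_le_right _ _).trans (min_le_right _ _)
    rw [le_div_iff₀ hcard] at h4
    linarith
  refine HiderGuarantees_mono (small_h N O hw hκ0 hκ1 hD hh0 h1 hε0.le hε1 h3 h2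
    (by linarith)) (ENNReal.ofReal_le_ofReal ?_)
  rw [mul_comm c]
  refine mul_le_mul_of_nonneg_left ?_ hΛ.le
  linarith

theorem small_diam' (N : Network Q) (O : Q) {w : ℝ≥0} (hw : 1 ≤ w) {κ c : ℝ} (hκ0 : 0 ≤ κ)
    (hκ1 : κ ≤ 1) (hD : ∀ x y : Q, dist x y ≤ κ * N.length)
    (hc : c < 1 / 2 + (1 - κ) ^ 4 / 48 - (1 - κ) ^ 5 / 160) :
    HiderGuarantees w O (ENNReal.ofReal (c * N.length)) := by
  rcases hκ1.lt_or_eq with h | h
  · exact small_diam N O hw hκ0 h hD hc
  · subst h
    have hc' : c < 1 / 2 := by simpa using hc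
    have hΛ := length_pos N O
    by_cases hbig : ∃ p q : Q, c * N.length ≤ dist p q
    · obtain ⟨p, q, hpq⟩ := hbig
      exact HiderGuarantees_mono (two_point O p q) (ENNReal.ofReal_le_ofReal hpq)
    · push Not at hbig
      have h0 : 0 ≤ max c 0 := le_max_right _ _
      have h1 : max c 0 < 1 := max_lt (by linarith) one_pos
      refine small_diam N O hw h0 h1 (fun x y => ?_) ?_
      · refine (hbig x y).le.trans ?_
        exact mul_le_mul_of_nonneg_right (le_max_left _ _) hΛ.le
      · have h2 : (1 - max c 0) ^ 5 ≤ (1 - max c 0) ^ 4 :=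
          pow_le_pow_of_le_one (by linarith) (by linarith) (by norm_num)
        have h3 : 0 ≤ (1 - max c 0) ^ 4 := by positivity
        linarith

theorem universal (N : Network Q) (O : Q) {w : ℝ≥0} (hw : 1 ≤ w) :
    HiderGuarantees w O (ENNReal.ofReal (501 / 1000 * N.length)) := by
  by_cases hbig : ∃ p q : Q, 501 / 1000 * N.length ≤ dist p q
  · obtain ⟨p, q, hpq⟩ := hbig
    exact HiderGuarantees_mono (two_point O p q) (ENNReal.ofReal_le_ofReal hpq)
  · push Not at hbig
    exact small_diam N O hw (κ := 501 / 1000) (by norm_num) (by norm_num)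
      (fun x y => (hbig x y).le) (by norm_num)

theorem dist_le_diam (N : Network Q) (x y : Q) : dist x y ≤ Metric.diam (univ : Set Q) := by
  have := network_compact N
  exact Metric.dist_le_diam_of_mem isCompact_univ.isBounded (mem_univ x) (mem_univ y)

theorem diam_le_length (N : Network Q) : Metric.diam (univ : Set Q) ≤ N.length := by
  classical
  let _ : MeasurableSpace Q := borel Q
  have _ : BorelSpace Q := ⟨rfl⟩
  have h0 : 0 ≤ N.length := by
    unfold Network.length
    exact Finset.sum_nonneg fun e _ => (N.len_pos e).le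
  refine Metric.diam_le_of_forall_dist_le h0 fun x _ y _ => ?_
  obtain ⟨r, hr⟩ := exists_geo N x y
  have h1 : ENNReal.ofReal (dist x y) ≤ ENNReal.ofReal N.length := by
    rw [← haus_geo hr, ← haus_total N]
    exact measure_mono (subset_univ _)
  exact (ENNReal.ofReal_le_ofReal_iff h0).1 h1

theorem exists_diam (N : Network Q) (O : Q) : ∃ p q : Q, dist p q = Metric.diam (univ : Set Q) := by
  have := network_compact N
  have hne : (univ : Set (Q × Q)).Nonempty := ⟨(O, O), mem_univ _⟩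
  obtain ⟨⟨p, q⟩, -, h⟩ := isCompact_univ.exists_isMaxOn hne
    (continuous_dist (α := Q)).continuousOn
  refine ⟨p, q, le_antisymm (dist_le_diam N p q) ?_⟩
  refine Metric.diam_le_of_forall_dist_le dist_nonneg fun x _ y _ => ?_
  exact h (mem_univ (x, y))

/-- The lower bound in terms of the relative diameter. -/
theorem main (N : Network Q) (O : Q) {w : ℝ≥0} (hw : 1 ≤ w) {c d : ℝ}
    (hd : d = Metric.diam (univ : Set Q) / N.length)
    (hc : c ≤ 501 / 1000 ∨ c ≤ d ∨ c < 1 / 2 + (1 - d) ^ 4 / 48 - (1 - d) ^ 5 / 160) :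
    HiderGuarantees w O (ENNReal.ofReal (c * N.length)) := by
  have hΛ := length_pos N O
  have hdΛ : d * N.length = Metric.diam (univ : Set Q) := by
    rw [hd]
    field_simp
  rcases hc with hc | hc | hc
  · refine HiderGuarantees_mono (universal N O hw) (ENNReal.ofReal_le_ofReal ?_)
    exact mul_le_mul_of_nonneg_right hc hΛ.le
  · obtain ⟨p, q, hpq⟩ := exists_diam N O
    refine HiderGuarantees_mono (two_point O p q) (ENNReal.ofReal_le_ofReal ?_)
    rw [hpq, ← hdΛ]
    exact mul_le_mul_of_nonneg_right hc hΛ.le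
  · refine small_diam' N O hw (κ := d) ?_ ?_ (fun x y => ?_) hc
    · rw [hd]
      exact div_nonneg Metric.diam_nonneg hΛ.le
    · rw [hd, div_le_one hΛ]
      exact diam_le_length N
    · rw [hdΛ]
      exact dist_le_diam N x y

end UB
end MPacf82c
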